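import Pool.Agent.H598.FI.Aff

set_option autoImplicit false

/-!
# Affine families and sums of forms
-/

namespace Pool.Agent.H598.FI

open Finset Polynomial WithZero IsDedekindDomain Pool.Agent.H598.FQ Pool.Agent.H598.WA

/-- Density in a product over all places and infinity. -/
lemma dense_of {P : Type*} {X : P → Type*} [∀ v, TopologicalSpace (X v)] {Y Z : Type*}
    [TopologicalSpace Y] (f : Z → (∀ v, X v) × Y)
    (h : ∀ x : (∀ v, X v) × Y, ∀ S : Finset P, ∀ U : ∀ v, Set (X v), (∀ v, U v ∈ nhds (x.1 v)) →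
      ∀ Ui ∈ nhds x.2, ∃ z, (∀ v ∈ S, (f z).1 v ∈ U v) ∧ (f z).2 ∈ Ui) : DenseRange f := by
  classical
  intro x
  rw [mem_closure_iff_nhds]
  intro W hW
  rw [nhds_prod_eq, Filter.mem_prod_iff] at hW
  obtain ⟨W1, hW1, W2, hW2, hW⟩ := hW
  rw [nhds_pi, Filter.mem_pi] at hW1
  obtain ⟨S, hSf, V, hV, hVW⟩ := hW1
  obtain ⟨z, hz1, hz2⟩ := h x hSf.toFinset V hV W2 hW2
  exact ⟨f z, hW ⟨hVW (fun v hv => hz1 v (hSf.mem_toFinset.2 hv)), hz2⟩, z, rfl⟩

section loc

variable {K L : Type*} [Field K] [Field L] [Valued L (WithZero (Multiplicative ℤ))] [Algebra K L]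

/-- Passing to affine coordinates is continuous. -/
lemma nhds_aff {m s : ℕ} (u : Fin m → L) (x : Fin s → L) (U : Set ((Fin m → L) × (Fin s → L)))
    (hU : U ∈ nhds (u, x)) :
    {p : (Fin m → L) × (Fin (s + 1) → L) | p.2 0 ≠ 0 ∧ (p.1, fun i => p.2 i.succ / p.2 0) ∈ U} ∈
      nhds (u, (Fin.cons 1 x : Fin (s + 1) → L)) := by
  have hc0 : Continuous (fun p : (Fin m → L) × (Fin (s + 1) → L) => p.2 0) :=
    (continuous_apply 0).comp continuous_snd
  have h1 : {p : (Fin m → L) × (Fin (s + 1) → L) | p.2 0 ≠ 0} ∈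
      nhds (u, (Fin.cons 1 x : Fin (s + 1) → L)) :=
    (isOpen_ne.preimage hc0).mem_nhds one_ne_zero
  have h2 : ContinuousAt (fun p : (Fin m → L) × (Fin (s + 1) → L) =>
      (p.1, fun i : Fin s => p.2 i.succ / p.2 0)) (u, (Fin.cons 1 x : Fin (s + 1) → L)) := by
    refine ContinuousAt.prodMk continuous_fst.continuousAt ?_
    refine continuousAt_pi.2 (fun i => ?_)
    refine ContinuousAt.div ?_ hc0.continuousAt one_ne_zero
    exact ((continuous_apply (i.succ)).comp continuous_snd).continuousAt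
  have h3 : (fun p : (Fin m → L) × (Fin (s + 1) → L) =>
      (p.1, fun i : Fin s => p.2 i.succ / p.2 0)) (u, (Fin.cons 1 x : Fin (s + 1) → L)) =
        (u, x) := by
    simp
  have h5 : U ∈ nhds ((fun p : (Fin m → L) × (Fin (s + 1) → L) =>
      (p.1, fun i : Fin s => p.2 i.succ / p.2 0)) (u, (Fin.cons 1 x : Fin (s + 1) → L))) := by
    rw [h3]
    exact hU
  exact Filter.inter_mem h1 (h2.preimage_mem_nhds h5)

/-- Scaling the blocks of variables is continuous. -/
lemma nhds_blocks {m s : ℕ} (β : Fin m → Fin s) (y : Fin m → L) (U : Set (Fin m → L))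
    (hU : U ∈ nhds y) :
    {p : (Fin m → L) × (Fin s → L) | (∀ i, p.2 i ≠ 0) ∧ (fun j => p.2 (β j) * p.1 j) ∈ U} ∈
      nhds (y, (fun _ => 1 : Fin s → L)) := by
  have h1 : {p : (Fin m → L) × (Fin s → L) | ∀ i, p.2 i ≠ 0} ∈
      nhds (y, (fun _ => 1 : Fin s → L)) := by
    have h3 : IsOpen {p : (Fin m → L) × (Fin s → L) | ∀ i, p.2 i ≠ 0} := by
      have h4 : {p : (Fin m → L) × (Fin s → L) | ∀ i, p.2 i ≠ 0} =
          ⋂ i : Fin s, {p : (Fin m → L) × (Fin s → L) | p.2 i ≠ 0} := by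
        ext u
        simp
      rw [h4]
      exact isOpen_iInter_of_finite
        (fun i => isOpen_ne.preimage ((continuous_apply i).comp continuous_snd))
    exact h3.mem_nhds (fun i => one_ne_zero)
  have h2 : Continuous (fun p : (Fin m → L) × (Fin s → L) => fun j => p.2 (β j) * p.1 j) := by
    refine continuous_pi (fun j => ?_)
    exact ((continuous_apply (β j)).comp continuous_snd).mul
      ((continuous_apply j).comp continuous_fst)
  have h4 := h2.continuousAt.preimage_mem_nhds (x := (y, (fun _ => 1 : Fin s → L))) (t := U)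
    (by simpa using hU)
  exact Filter.inter_mem h1 h4

end loc

/-- A form in one of the blocks of variables. -/
lemma aeval_blocks {K : Type*} [Field K] {m s k : ℕ} (β : Fin m → Fin s)
    (p : MvPolynomial (Fin m) K) (i : Fin s) (hp : p.IsHomogeneous k)
    (hβ : ∀ j ∈ p.vars, β j = i) {L : Type*} [Field L] [Algebra K L] (z : Fin s → L)
    (c : Fin m → L) :
    MvPolynomial.aeval (fun j => z (β j) * c j) p = z i ^ k * MvPolynomial.aeval c p := by
  rw [MvPolynomial.aeval_def, MvPolynomial.aeval_def, MvPolynomial.eval₂_eq',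
    MvPolynomial.eval₂_eq', Finset.mul_sum]
  refine Finset.sum_congr rfl (fun d hd => ?_)
  have h1 : ∏ j, (z (β j) * c j) ^ d j = z i ^ k * ∏ j, c j ^ d j := by
    have h2 : ∏ j, (z (β j) * c j) ^ d j = ∏ j, z (β j) ^ d j * c j ^ d j :=
      Finset.prod_congr rfl (fun j _ => mul_pow _ _ _)
    rw [h2, Finset.prod_mul_distrib]
    congr 1
    have h3 : ∏ j, z (β j) ^ d j = ∏ j, z i ^ d j := by
      refine Finset.prod_congr rfl (fun j _ => ?_)
      by_cases h0 : d j = 0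
      · rw [h0, pow_zero, pow_zero]
      · rw [hβ j ((MvPolynomial.mem_vars_iff_mem_support j).2 ⟨d, hd, Finsupp.mem_support_iff.2 h0⟩)]
    rw [h3, Finset.prod_pow_eq_pow_sum]
    congr 1
    have h5 := hp (MvPolynomial.mem_support_iff.1 hd)
    rw [← h5]
    simp [Finsupp.weight_apply, Finsupp.sum_fintype]
  rw [h1]
  ring

section main

variable {F : Type*} [Field F] [Fintype F] [DecidableEq (RatFunc F)]

/-- Weak approximation for affine families. -/
theorem aff_explicit {k : ℕ} (hk : 2 ≤ k) (hch : ∀ i : ℕ, 1 ≤ i → i ≤ k → ((i : ℕ) : F) ≠ 0)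
    (hbig : Big (Fintype.card F) k) {s m : ℕ} (hs : 2 * k ≤ s)
    (a : Fin s → MvPolynomial (Fin m) (RatFunc F)) (b : MvPolynomial (Fin m) (RatFunc F))
    (S : Finset (HeightOneSpectrum F[X]))
    (p : ∀ v : HeightOneSpectrum F[X], (Fin m → v.adicCompletion (RatFunc F)) ×
      (Fin s → v.adicCompletion (RatFunc F)))
    (ha : ∀ v, ∀ i, MvPolynomial.aeval (p v).1 (a i) ≠ 0)
    (hb : ∀ v, MvPolynomial.aeval (p v).1 b ≠ 0)
    (hx : ∀ v, ∑ i, MvPolynomial.aeval (p v).1 (a i) * (p v).2 i ^ k =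
      MvPolynomial.aeval (p v).1 b)
    (pi : (Fin m → RatFunc.CompletionAtInfty F) × (Fin s → RatFunc.CompletionAtInfty F))
    (hai : ∀ i, MvPolynomial.aeval pi.1 (a i) ≠ 0)
    (hbi : MvPolynomial.aeval pi.1 b ≠ 0)
    (hxi : ∑ i, MvPolynomial.aeval pi.1 (a i) * pi.2 i ^ k = MvPolynomial.aeval pi.1 b)
    (N : ∀ v : HeightOneSpectrum F[X], Set ((Fin m → v.adicCompletion (RatFunc F)) ×
      (Fin s → v.adicCompletion (RatFunc F))))
    (hN : ∀ v, N v ∈ nhds (p v))
    (Ni : Set ((Fin m → RatFunc.CompletionAtInfty F) × (Fin s → RatFunc.CompletionAtInfty F)))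
    (hNi : Ni ∈ nhds pi) :
    ∃ (c : Fin m → RatFunc F) (z : Fin s → RatFunc F), (∀ i, MvPolynomial.aeval c (a i) ≠ 0) ∧
      MvPolynomial.aeval c b ≠ 0 ∧
      ∑ i, MvPolynomial.aeval c (a i) * z i ^ k = MvPolynomial.aeval c b ∧
      (∀ v ∈ S, ((fun j => algebraMap (RatFunc F) (v.adicCompletion (RatFunc F)) (c j)),
        (fun i => algebraMap (RatFunc F) (v.adicCompletion (RatFunc F)) (z i))) ∈ N v) ∧
      ((fun j => algebraMap (RatFunc F) (RatFunc.CompletionAtInfty F) (c j)),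
        (fun i => algebraMap (RatFunc F) (RatFunc.CompletionAtInfty F) (z i))) ∈ Ni := by
  have key : ∀ {L : Type _} [Field L] [Algebra (RatFunc F) L] (u : Fin m → L) (y : Fin (s + 1) → L),
      ∑ i, MvPolynomial.aeval u ((Fin.cons (-b) a : Fin (s + 1) → _) i) * y i ^ k =
        -(MvPolynomial.aeval u b) * y 0 ^ k + ∑ i, MvPolynomial.aeval u (a i) * y i.succ ^ k := by
    intro L _ _ u y
    rw [Fin.sum_univ_succ]
    simp
  have key0 : ∀ {L : Type _} [Field L] [Algebra (RatFunc F) L] (u : Fin m → L),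
      (∀ i, MvPolynomial.aeval u (a i) ≠ 0) → MvPolynomial.aeval u b ≠ 0 →
      ∀ i, MvPolynomial.aeval u ((Fin.cons (-b) a : Fin (s + 1) → _) i) ≠ 0 := by
    intro L _ _ u h1 h2 i
    refine Fin.cases ?_ (fun i => ?_) i
    · simpa using h2
    · simpa using h1 i
  obtain ⟨W, Wi, hW, hWi, hc⟩ := fib_explicit hk hch hbig (show 2 * k + 1 ≤ s + 1 by omega)
    (Fin.cons (-b) a : Fin (s + 1) → MvPolynomial (Fin m) (RatFunc F)) S
    (fun v => (p v).1) (fun v => (Fin.cons 1 (p v).2 : Fin (s + 1) → v.adicCompletion (RatFunc F)))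
    (fun v => key0 _ (ha v) (hb v))
    (fun v h0 => one_ne_zero (congrFun h0 0))
    (fun v => by
      rw [key]
      simp only [Fin.cons_zero, Fin.cons_succ, one_pow, mul_one]
      rw [hx v]
      ring)
    pi.1 (Fin.cons 1 pi.2 : Fin (s + 1) → RatFunc.CompletionAtInfty F)
    (key0 _ hai hbi) (fun h0 => one_ne_zero (congrFun h0 0))
    (by
      rw [key]
      simp only [Fin.cons_zero, Fin.cons_succ, one_pow, mul_one]
      rw [hxi]
      ring)
    _ (fun v => nhds_aff (p v).1 (p v).2 (N v) (hN v)) _ (nhds_aff pi.1 pi.2 Ni hNi)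
  obtain ⟨c, hcS, hci⟩ := wa_affine S (fun v => (p v).1) pi.1 W hW Wi hWi
  obtain ⟨z, hz1, hz0, hz, hzS, hzi⟩ := hc c hcS hci
  have hz00 : z 0 ≠ 0 := by
    intro h0
    apply hzi.1
    show algebraMap (RatFunc F) (RatFunc.CompletionAtInfty F) (z 0) = 0
    rw [h0, map_zero]
  refine ⟨c, fun i => z i.succ / z 0, fun i => ?_, ?_, ?_, fun v hv => ?_, ?_⟩
  · have := hz1 i.succ
    simpa using this
  · have := hz1 0
    simpa using this
  · rw [key] at hz
    have h1 : z 0 ^ k ≠ 0 := pow_ne_zero _ hz00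
    have h2 : ∑ i, MvPolynomial.aeval c (a i) * (z (Fin.succ i) / z 0) ^ k =
        (∑ i, MvPolynomial.aeval c (a i) * z (Fin.succ i) ^ k) / z 0 ^ k := by
      rw [Finset.sum_div]
      refine Finset.sum_congr rfl (fun i _ => ?_)
      rw [div_pow]
      ring
    rw [h2, div_eq_iff h1]
    linear_combination hz
  · have h1 := (hzS v hv).2
    simp only [map_div₀]
    exact h1
  · have h1 := hzi.2
    simp only [map_div₀]
    exact h1

/-- Weak approximation for sums of forms in disjoint sets of variables. -/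
theorem forms_explicit {k : ℕ} (hk : 2 ≤ k) (hch : ∀ i : ℕ, 1 ≤ i → i ≤ k → ((i : ℕ) : F) ≠ 0)
    (hbig : Big (Fintype.card F) k) {s m : ℕ} (hs : 2 * k + 1 ≤ s)
    (Φ : Fin s → MvPolynomial (Fin m) (RatFunc F)) (hΦ : ∀ i, (Φ i).IsHomogeneous k)
    (β : Fin m → Fin s) (hβ : ∀ i, ∀ j ∈ (Φ i).vars, β j = i)
    (S : Finset (HeightOneSpectrum F[X]))
    (y : ∀ v : HeightOneSpectrum F[X], Fin m → v.adicCompletion (RatFunc F))
    (ha : ∀ v, ∀ i, MvPolynomial.aeval (y v) (Φ i) ≠ 0)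
    (hx : ∀ v, ∑ i, MvPolynomial.aeval (y v) (Φ i) = 0)
    (yi : Fin m → RatFunc.CompletionAtInfty F)
    (hai : ∀ i, MvPolynomial.aeval yi (Φ i) ≠ 0)
    (hxi : ∑ i, MvPolynomial.aeval yi (Φ i) = 0)
    (N : ∀ v : HeightOneSpectrum F[X], Set (Fin m → v.adicCompletion (RatFunc F)))
    (hN : ∀ v, N v ∈ nhds (y v))
    (Ni : Set (Fin m → RatFunc.CompletionAtInfty F)) (hNi : Ni ∈ nhds yi) :
    ∃ c : Fin m → RatFunc F, (∀ i, MvPolynomial.aeval c (Φ i) ≠ 0) ∧
      ∑ i, MvPolynomial.aeval c (Φ i) = 0 ∧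
      (∀ v ∈ S, (fun j => algebraMap (RatFunc F) (v.adicCompletion (RatFunc F)) (c j)) ∈ N v) ∧
      (fun j => algebraMap (RatFunc F) (RatFunc.CompletionAtInfty F) (c j)) ∈ Ni := by
  obtain ⟨W, Wi, hW, hWi, hc⟩ := fib_explicit hk hch hbig hs Φ S y (fun v _ => 1) ha
    (fun v h0 => one_ne_zero (congrFun h0 (⟨0, by omega⟩ : Fin s)))
    (fun v => by simpa using hx v)
    yi (fun _ => 1) hai (fun h0 => one_ne_zero (congrFun h0 (⟨0, by omega⟩ : Fin s)))
    (by simpa using hxi)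
    _ (fun v => nhds_blocks β (y v) (N v) (hN v)) _ (nhds_blocks β yi Ni hNi)
  obtain ⟨c, hcS, hci⟩ := wa_affine S y yi W hW Wi hWi
  obtain ⟨z, hz1, hz0, hz, hzS, hzi⟩ := hc c hcS hci
  have hzne : ∀ i, z i ≠ 0 := by
    intro i h0
    apply hzi.1 i
    show algebraMap (RatFunc F) (RatFunc.CompletionAtInfty F) (z i) = 0
    rw [h0, map_zero]
  have hsc : ∀ i, MvPolynomial.aeval (fun j => z (β j) * c j) (Φ i) =
      z i ^ k * MvPolynomial.aeval c (Φ i) := fun i =>
    aeval_blocks β (Φ i) i (hΦ i) (hβ i) z c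
  refine ⟨fun j => z (β j) * c j, fun i => ?_, ?_, fun v hv => ?_, ?_⟩
  · rw [hsc]
    exact mul_ne_zero (pow_ne_zero _ (hzne i)) (hz1 i)
  · rw [← hz]
    exact Finset.sum_congr rfl (fun i _ => by rw [hsc, mul_comm])
  · have h1 := (hzS v hv).2
    simp only [map_mul]
    exact h1
  · have h1 := hzi.2
    simp only [map_mul]
    exact h1

end main

end Pool.Agent.H598.FI
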