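import Pool.Agent.H598.FI.Lift
import Pool.Agent.H598.WA.Final

set_option autoImplicit false

/-!
# Weak approximation for fibrations in diagonal hypersurfaces
-/

namespace Pool.Agent.H598.FI

open Finset Polynomial WithZero IsDedekindDomain Pool.Agent.H598.FQ Pool.Agent.H598.WA

lemma aeval_alg {K L : Type*} [Field K] [Field L] [Algebra K L] {m : ℕ} (c : Fin m → K) (p : MvPolynomial (Fin m) K) :
    MvPolynomial.aeval (fun j => algebraMap K L (c j)) p
      = algebraMap K L (MvPolynomial.aeval c p) := by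
  have h := MvPolynomial.aeval_algebraMap_apply L c p
  exact h

section loc

variable {K L : Type*} [Field K] [Field L] [Valued L (WithZero (Multiplicative ℤ))] [Algebra K L]

lemma cont_aeval {m : ℕ} (p : MvPolynomial (Fin m) K) :
    Continuous (fun u : Fin m → L => MvPolynomial.aeval u p) := by
  have h : (fun u : Fin m → L => MvPolynomial.aeval u p) =
      fun u => MvPolynomial.eval u (MvPolynomial.map (algebraMap K L) p) := by
    funext u
    rw [MvPolynomial.aeval_def, MvPolynomial.eval₂_eq_eval_map]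
  rw [h]
  exact MvPolynomial.continuous_eval _

/-- The local step. -/
lemma loc_data [CompleteSpace L]
    (hnt : ∃ c : L, c ≠ 0 ∧ (Valued.v c : WithZero (Multiplicative ℤ)) < 1)
    {s k m : ℕ} (hk : 1 ≤ k) (hkv : (Valued.v (k : L) : WithZero (Multiplicative ℤ)) = 1)
    (a : Fin s → MvPolynomial (Fin m) K) (u : Fin m → L) (x : Fin s → L)
    (ha : ∀ i, MvPolynomial.aeval u (a i) ≠ 0) (hx0 : x ≠ 0)
    (hx : ∑ i, MvPolynomial.aeval u (a i) * x i ^ k = 0)
    (N : Set ((Fin m → L) × (Fin s → L))) (hN : N ∈ nhds (u, x)) :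
    ∃ W ∈ nhds u, ∀ c : Fin m → K, (fun j => algebraMap K L (c j)) ∈ W →
      (∀ i, MvPolynomial.aeval c (a i) ≠ 0) ∧ ∃ x' : Fin s → L, x' ≠ 0 ∧
        ∑ i, algebraMap K L (MvPolynomial.aeval c (a i)) * x' i ^ k = 0 ∧
        ∃ U ∈ nhds x', ∀ y ∈ U, ((fun j => algebraMap K L (c j)), y) ∈ N := by
  rw [nhds_prod_eq, Filter.mem_prod_iff] at hN
  obtain ⟨N1, hN1, U1, hU1, hNU⟩ := hN
  obtain ⟨W', hW', hlift⟩ := lift_near hnt hk hkv (fun i => MvPolynomial.aeval u (a i)) ha x hx0 hx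
    U1 hU1
  have hφ : Continuous (fun (u : Fin m → L) (i : Fin s) => MvPolynomial.aeval u (a i)) :=
    continuous_pi (fun i => cont_aeval (a i))
  have h1 : (fun (u : Fin m → L) (i : Fin s) => MvPolynomial.aeval u (a i)) ⁻¹' W' ∈ nhds u :=
    hφ.continuousAt.preimage_mem_nhds hW'
  have h2 : {u : Fin m → L | ∀ i, MvPolynomial.aeval u (a i) ≠ 0} ∈ nhds u := by
    have h3 : IsOpen {u : Fin m → L | ∀ i, MvPolynomial.aeval u (a i) ≠ 0} := by
      have h4 : {u : Fin m → L | ∀ i, MvPolynomial.aeval u (a i) ≠ 0} =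
          ⋂ i : Fin s, {u : Fin m → L | MvPolynomial.aeval u (a i) ≠ 0} := by
        ext u
        simp
      rw [h4]
      exact isOpen_iInter_of_finite (fun i => isOpen_ne.preimage (cont_aeval (a i)))
    exact h3.mem_nhds ha
  refine ⟨N1 ∩ (_ ∩ _), Filter.inter_mem hN1 (Filter.inter_mem h1 h2), fun c hc => ?_⟩
  obtain ⟨hc1, hc2, hc3⟩ := hc
  refine ⟨fun i h0 => ?_, ?_⟩
  · apply hc3 i
    rw [aeval_alg, h0, map_zero]
  · obtain ⟨x', hx'0, hx', hU'⟩ := hlift _ hc2
    refine ⟨x', hx'0, ?_, U1, hU', fun y hy => hNU ⟨hc1, hy⟩⟩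
    rw [← hx']
    refine Finset.sum_congr rfl (fun i _ => ?_)
    show _ = MvPolynomial.aeval (fun j => algebraMap K L (c j)) (a i) * x' i ^ k
    rw [aeval_alg]

end loc

section main

variable {F : Type*} [Field F] [Fintype F] [DecidableEq (RatFunc F)]

omit [Fintype F] [DecidableEq (RatFunc F)] in
lemma nt_fin (v : HeightOneSpectrum F[X]) : ∃ c : v.adicCompletion (RatFunc F), c ≠ 0 ∧
    (Valued.v c : WithZero (Multiplicative ℤ)) < 1 := by
  refine ⟨algebraMap (RatFunc F) _ (algebraMap F[X] (RatFunc F) (gn v)), ?_, ?_⟩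
  · exact (_root_.map_ne_zero _).2 (RatFunc.algebraMap_ne_zero (gn_irr v).ne_zero)
  · rw [val_fin, val_gn_self, ← exp_zero, exp_lt_exp]
    omega

omit [Fintype F] in
lemma complete_inf : CompleteSpace (RatFunc.CompletionAtInfty F) := by
  let _ : Valued (RatFunc F) (WithZero (Multiplicative ℤ)) := RatFunc.inftyValued F
  exact UniformSpace.Completion.completeSpace _

omit [Fintype F] in
lemma nt_inf : ∃ c : RatFunc.CompletionAtInfty F, c ≠ 0 ∧
    (Valued.v c : WithZero (Multiplicative ℤ)) < 1 := by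
  refine ⟨algebraMap (RatFunc F) _ (RatFunc.X)⁻¹, ?_, ?_⟩
  · exact (_root_.map_ne_zero _).2 (inv_ne_zero RatFunc.X_ne_zero)
  · rw [val_inf, map_inv₀, RatFunc.inftyValuation.X, ← exp_neg, ← exp_zero, exp_lt_exp]
    omega

omit [Fintype F] in
lemma kv_fin {k : ℕ} (hkF : ((k : ℕ) : F) ≠ 0) (v : HeightOneSpectrum F[X]) :
    (Valued.v ((k : ℕ) : v.adicCompletion (RatFunc F)) : WithZero (Multiplicative ℤ)) = 1 := by
  have : ((k : ℕ) : v.adicCompletion (RatFunc F))
      = algebraMap (RatFunc F) (v.adicCompletion (RatFunc F)) ((k : ℕ) : RatFunc F) := by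
    rw [map_natCast]
  rw [this, val_fin, val_nat_fin hkF v]

omit [Fintype F] in
lemma kv_inf {k : ℕ} (hkF : ((k : ℕ) : F) ≠ 0) :
    (Valued.v ((k : ℕ) : RatFunc.CompletionAtInfty F) : WithZero (Multiplicative ℤ)) = 1 := by
  have : ((k : ℕ) : RatFunc.CompletionAtInfty F)
      = algebraMap (RatFunc F) (RatFunc.CompletionAtInfty F) ((k : ℕ) : RatFunc F) := by
    rw [map_natCast]
  rw [this, val_inf, val_nat_inf hkF]

/-- Weak approximation for the total space, given points of the base close to the given ones. -/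
theorem fib_explicit {k : ℕ} (hk : 2 ≤ k) (hch : ∀ i : ℕ, 1 ≤ i → i ≤ k → ((i : ℕ) : F) ≠ 0)
    (hbig : Big (Fintype.card F) k) {s m : ℕ} (hs : 2 * k + 1 ≤ s)
    (a : Fin s → MvPolynomial (Fin m) (RatFunc F)) (S : Finset (HeightOneSpectrum F[X]))
    (u : ∀ v : HeightOneSpectrum F[X], Fin m → v.adicCompletion (RatFunc F))
    (x : ∀ v : HeightOneSpectrum F[X], Fin s → v.adicCompletion (RatFunc F))
    (ha : ∀ v, ∀ i, MvPolynomial.aeval (u v) (a i) ≠ 0)
    (hx0 : ∀ v, x v ≠ 0)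
    (hx : ∀ v, ∑ i, MvPolynomial.aeval (u v) (a i) * x v i ^ k = 0)
    (ui : Fin m → RatFunc.CompletionAtInfty F) (xi : Fin s → RatFunc.CompletionAtInfty F)
    (hai : ∀ i, MvPolynomial.aeval ui (a i) ≠ 0) (hxi0 : xi ≠ 0)
    (hxi : ∑ i, MvPolynomial.aeval ui (a i) * xi i ^ k = 0)
    (N : ∀ v : HeightOneSpectrum F[X], Set ((Fin m → v.adicCompletion (RatFunc F)) ×
      (Fin s → v.adicCompletion (RatFunc F))))
    (hN : ∀ v, N v ∈ nhds (u v, x v))
    (Ni : Set ((Fin m → RatFunc.CompletionAtInfty F) × (Fin s → RatFunc.CompletionAtInfty F)))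
    (hNi : Ni ∈ nhds (ui, xi)) :
    ∃ (W : ∀ v : HeightOneSpectrum F[X], Set (Fin m → v.adicCompletion (RatFunc F)))
      (Wi : Set (Fin m → RatFunc.CompletionAtInfty F)), (∀ v, W v ∈ nhds (u v)) ∧ Wi ∈ nhds ui ∧
      ∀ c : Fin m → RatFunc F,
        (∀ v ∈ S, (fun j => algebraMap (RatFunc F) (v.adicCompletion (RatFunc F)) (c j)) ∈ W v) →
        (fun j => algebraMap (RatFunc F) (RatFunc.CompletionAtInfty F) (c j)) ∈ Wi →
        ∃ z : Fin s → RatFunc F, (∀ i, MvPolynomial.aeval c (a i) ≠ 0) ∧ z ≠ 0 ∧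
          ∑ i, MvPolynomial.aeval c (a i) * z i ^ k = 0 ∧
          (∀ v ∈ S, ((fun j => algebraMap (RatFunc F) (v.adicCompletion (RatFunc F)) (c j)),
            (fun i => algebraMap (RatFunc F) (v.adicCompletion (RatFunc F)) (z i))) ∈ N v) ∧
          ((fun j => algebraMap (RatFunc F) (RatFunc.CompletionAtInfty F) (c j)),
            (fun i => algebraMap (RatFunc F) (RatFunc.CompletionAtInfty F) (z i))) ∈ Ni := by
  classical
  have hkF : ((k : ℕ) : F) ≠ 0 := hch k (by omega) le_rfl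
  have h1 := fun v : HeightOneSpectrum F[X] => loc_data (nt_fin v) (show 1 ≤ k by omega)
    (kv_fin hkF v) a (u v) (x v) (ha v) (hx0 v) (hx v) (N v) (hN v)
  choose W hW hWc using h1
  have := complete_inf (F := F)
  obtain ⟨Wi, hWi, hWic⟩ := loc_data nt_inf (show 1 ≤ k by omega) (kv_inf hkF) a ui xi hai hxi0 hxi
    Ni hNi
  refine ⟨W, Wi, hW, hWi, fun c hc hci => ?_⟩
  obtain ⟨hac, yi, hyi0, hyi, Ui, hUi, hUiN⟩ := hWic c hci
  have h2 : ∀ v : HeightOneSpectrum F[X], ∃ (y : Fin s → v.adicCompletion (RatFunc F))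
      (U : Set (Fin s → v.adicCompletion (RatFunc F))), v ∈ S → (y ≠ 0 ∧
        ∑ i, algebraMap (RatFunc F) (v.adicCompletion (RatFunc F)) (MvPolynomial.aeval c (a i)) *
          y i ^ k = 0 ∧ U ∈ nhds y ∧
        ∀ z ∈ U, ((fun j => algebraMap (RatFunc F) (v.adicCompletion (RatFunc F)) (c j)), z)
          ∈ N v) := by
    intro v
    by_cases hv : v ∈ S
    · obtain ⟨-, y, hy0, hy, U, hU, hUN⟩ := hWc v c (hc v hv)
      exact ⟨y, U, fun _ => ⟨hy0, hy, hU, hUN⟩⟩
    · exact ⟨0, ∅, fun h => absurd h hv⟩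
  choose y U hyU using h2
  have hne : {w : Fin s → RatFunc.CompletionAtInfty F | w ≠ 0} ∈ nhds yi :=
    isOpen_ne.mem_nhds hyi0
  obtain ⟨z, hz, hz1, hz2⟩ := wa_explicit hk hch hbig hs (fun i => MvPolynomial.aeval c (a i)) hac S
    y (fun v hv => (hyU v hv).1) (fun v hv => (hyU v hv).2.1) yi hyi0 hyi U
    (fun v hv => (hyU v hv).2.2.1) (Ui ∩ {w | w ≠ 0}) (Filter.inter_mem hUi hne)
  refine ⟨z, hac, ?_, hz, fun v hv => ?_, hUiN _ hz2.1⟩
  · intro h0
    apply hz2.2
    funext i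
    rw [h0]
    simp
  · exact (hyU v hv).2.2.2 _ (hz1 v hv)

end main

end Pool.Agent.H598.FI
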