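import Pool.Agent.H598.FI.WaK
import Pool.Agent.H598.FI.Fib

set_option autoImplicit false

/-!
# Weak approximation for affine space over `F(t)`
-/

namespace Pool.Agent.H598.FI

open Finset Polynomial WithZero IsDedekindDomain Pool.Agent.H598.WA

/-- Neighbourhoods in a power of a valued field. -/
lemma pi_radius {L : Type*} [Field L] [Valued L (WithZero (Multiplicative ℤ))] {m : ℕ}
    {u : Fin m → L} {W : Set (Fin m → L)} (hW : W ∈ nhds u) :
    ∃ δ : Fin m → WithZero (Multiplicative ℤ), (∀ j, δ j ≠ 0) ∧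
      ∀ y : Fin m → L, (∀ j, Valued.v (y j - u j) < δ j) → y ∈ W := by
  rw [nhds_pi, Filter.mem_pi] at hW
  obtain ⟨I, -, t, ht, hI⟩ := hW
  choose δ hδ0 hδ using fun i => ap_ball (ht i)
  exact ⟨δ, hδ0, fun y hy => hI fun i _ => hδ i _ (hy i)⟩

variable {F : Type*} [Field F] [DecidableEq (RatFunc F)]

lemma wa_one (S : Finset (HeightOneSpectrum F[X]))
    (u : ∀ v : HeightOneSpectrum F[X], v.adicCompletion (RatFunc F))
    (ui : RatFunc.CompletionAtInfty F) (δ : HeightOneSpectrum F[X] → WithZero (Multiplicative ℤ))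
    (hδ : ∀ v, δ v ≠ 0) (δi : WithZero (Multiplicative ℤ)) (hδi : δi ≠ 0) :
    ∃ c : RatFunc F, (∀ v ∈ S, (Valued.v (algebraMap (RatFunc F) (v.adicCompletion (RatFunc F)) c
      - u v) : WithZero (Multiplicative ℤ)) < δ v) ∧
      (Valued.v (algebraMap (RatFunc F) (RatFunc.CompletionAtInfty F) c - ui) :
        WithZero (Multiplicative ℤ)) < δi := by
  have hnt : ∀ v : HeightOneSpectrum F[X], ∃ c : RatFunc F, c ≠ 0 ∧
      (Valued.v (algebraMap (RatFunc F) (v.adicCompletion (RatFunc F)) c) :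
        WithZero (Multiplicative ℤ)) < 1 := by
    intro v
    refine ⟨algebraMap F[X] (RatFunc F) (gn v), RatFunc.algebraMap_ne_zero (gn_irr v).ne_zero, ?_⟩
    rw [val_fin, val_gn_self, ← exp_zero, exp_lt_exp]
    omega
  have hnti : ∃ c : RatFunc F, c ≠ 0 ∧
      (Valued.v (algebraMap (RatFunc F) (RatFunc.CompletionAtInfty F) c) :
        WithZero (Multiplicative ℤ)) < 1 := by
    refine ⟨(RatFunc.X)⁻¹, inv_ne_zero RatFunc.X_ne_zero, ?_⟩
    rw [val_inf, map_inv₀, RatFunc.inftyValuation.X, ← exp_neg, ← exp_zero, exp_lt_exp]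
    omega
  choose θ hθ0 hθ using fun v => ap_near (dense_fin v) (hnt v) (hδ v) (u v)
  obtain ⟨θi, -, hθi⟩ := ap_near (K := RatFunc F) dense_inf hnti hδi ui
  choose e he1 he2 using fun v => ap_exists_M 1 (δ v) (hδ v)
  obtain ⟨ei, -, hei⟩ := ap_exists_M 1 δi hδi
  set n := ∑ v ∈ S, e v + ei with hn
  obtain ⟨z, hz1, hz2⟩ := wa_K S θ θi n
  refine ⟨z, fun v hv => ?_, ?_⟩
  · have h1 : algebraMap (RatFunc F) (v.adicCompletion (RatFunc F)) z - u v =
        algebraMap (RatFunc F) (v.adicCompletion (RatFunc F)) (z - θ v) +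
          (algebraMap (RatFunc F) (v.adicCompletion (RatFunc F)) (θ v) - u v) := by
      rw [map_sub]
      ring
    rw [h1]
    refine Valuation.map_add_lt _ ?_ (hθ v)
    rw [val_fin]
    refine lt_of_le_of_lt (hz1 v hv) (lt_of_le_of_lt ?_ (he2 v))
    rw [mul_one, exp_le_exp]
    have h2 := Finset.single_le_sum (f := e) (fun _ _ => Nat.zero_le _) hv
    omega
  · have h1 : algebraMap (RatFunc F) (RatFunc.CompletionAtInfty F) z - ui =
        algebraMap (RatFunc F) (RatFunc.CompletionAtInfty F) (z - θi) +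
          (algebraMap (RatFunc F) (RatFunc.CompletionAtInfty F) θi - ui) := by
      rw [map_sub]
      ring
    rw [h1]
    refine Valuation.map_add_lt _ ?_ hθi
    rw [val_inf]
    refine lt_of_le_of_lt hz2 (lt_of_le_of_lt ?_ hei)
    rw [mul_one, exp_le_exp]
    omega

/-- Weak approximation for affine space. -/
theorem wa_affine {m : ℕ} (S : Finset (HeightOneSpectrum F[X]))
    (u : ∀ v : HeightOneSpectrum F[X], Fin m → v.adicCompletion (RatFunc F))
    (ui : Fin m → RatFunc.CompletionAtInfty F)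
    (W : ∀ v : HeightOneSpectrum F[X], Set (Fin m → v.adicCompletion (RatFunc F)))
    (hW : ∀ v, W v ∈ nhds (u v)) (Wi : Set (Fin m → RatFunc.CompletionAtInfty F))
    (hWi : Wi ∈ nhds ui) :
    ∃ c : Fin m → RatFunc F,
      (∀ v ∈ S, (fun j => algebraMap (RatFunc F) (v.adicCompletion (RatFunc F)) (c j)) ∈ W v) ∧
      (fun j => algebraMap (RatFunc F) (RatFunc.CompletionAtInfty F) (c j)) ∈ Wi := by
  choose δ hδ0 hδ using fun v => pi_radius (hW v)
  obtain ⟨δi, hδi0, hδi⟩ := pi_radius hWi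
  choose c hc hci using fun j => wa_one S (fun v => u v j) (ui j) (fun v => δ v j)
    (fun v => hδ0 v j) (δi j) (hδi0 j)
  exact ⟨c, fun v hv => hδ v _ (fun j => hc j v hv), hδi _ (fun j => hci j)⟩

end Pool.Agent.H598.FI
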