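import Pool.Agent.H598.FI.Kl
import Pool.Agent.H598.ZC.Main

set_option autoImplicit false

/-!
# Points over constant field extensions close to given local points
-/

namespace Pool.Agent.H598.FI

open Finset Polynomial WithZero IsDedekindDomain Module Pool.Agent.H598.FQ Pool.Agent.H598.WA

/-- The embedding of `F(t)` into `E(t)`. -/
noncomputable def em (F E : Type*) [Field F] [Field E] [Algebra F E] : RatFunc F →+* RatFunc E :=
  @algebraMap (RatFunc F) (RatFunc E) _ _ (ZC.algE F E)

lemma aeval_em {F E : Type*} [Field F] [Field E] [Algebra F E] {m : ℕ} (u : Fin m → RatFunc F)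
    (p : MvPolynomial (Fin m) (RatFunc F)) :
    MvPolynomial.aeval (fun j => em F E (u j)) (MvPolynomial.map (em F E) p) =
      em F E (MvPolynomial.aeval u p) := by
  rw [MvPolynomial.aeval_def, MvPolynomial.aeval_def, MvPolynomial.eval₂_map,
    MvPolynomial.hom_eval₂]
  rfl

lemma ball_nhds {L : Type*} [Field L] [Valued L (WithZero (Multiplicative ℤ))]
    (hnt : ∃ c : L, c ≠ 0 ∧ (Valued.v c : WithZero (Multiplicative ℤ)) < 1) {m s : ℕ}
    (P : (Fin m → L) × (Fin s → L)) {δ : WithZero (Multiplicative ℤ)} (hδ : δ ≠ 0) :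
    {p : (Fin m → L) × (Fin s → L) | (∀ j, (Valued.v (p.1 j - P.1 j) :
      WithZero (Multiplicative ℤ)) < δ) ∧ ∀ i, (Valued.v (p.2 i - P.2 i) :
      WithZero (Multiplicative ℤ)) < δ} ∈ nhds P := by
  have h1 : Set.univ.pi (fun j => {y : L | (Valued.v (y - P.1 j) :
      WithZero (Multiplicative ℤ)) < δ}) ∈ nhds P.1 :=
    set_pi_mem_nhds Set.finite_univ (fun j _ => ap_nhds (K := L) (L := L) hnt hδ _)
  have h2 : Set.univ.pi (fun i => {y : L | (Valued.v (y - P.2 i) :
      WithZero (Multiplicative ℤ)) < δ}) ∈ nhds P.2 :=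
    set_pi_mem_nhds Set.finite_univ (fun j _ => ap_nhds (K := L) (L := L) hnt hδ _)
  refine Filter.mem_of_superset (prod_mem_nhds h1 h2) (fun p hp => ⟨fun j => ?_, fun i => ?_⟩)
  · exact hp.1 j (Set.mem_univ j)
  · exact hp.2 i (Set.mem_univ i)

section

variable (F E : Type*) [Field F] [Field E] [Algebra F E]

/-- A place lies over only one place. -/
lemma over_unique (v v' : HeightOneSpectrum F[X]) (w : HeightOneSpectrum E[X])
    (h : (gn v).map (algebraMap F E) ∈ w.asIdeal)
    (h' : (gn v').map (algebraMap F E) ∈ w.asIdeal) : v = v' := by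
  by_contra hne
  have h1 : IsCoprime (gn v) (gn v') := by
    have := coprime_gn hne 1
    simpa using this
  have h2 := h1.map (Polynomial.mapRingHom (algebraMap F E))
  obtain ⟨a, b, hab⟩ := h2
  have h3 : (1 : E[X]) ∈ w.asIdeal := by
    rw [← hab]
    exact w.asIdeal.add_mem (w.asIdeal.mul_mem_left _ h) (w.asIdeal.mul_mem_left _ h')
  exact w.isPrime.ne_top ((Ideal.eq_top_iff_one _).2 h3)

end

/-- The local step: an exact point over the completion of `E(t)`. -/
lemma local_exact {K' L : Type*} [Field K'] [Field L] [Valued L (WithZero (Multiplicative ℤ))]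
    [Algebra K' L] [CompleteSpace L]
    (hnt : ∃ c : L, c ≠ 0 ∧ (Valued.v c : WithZero (Multiplicative ℤ)) < 1)
    {s k m : ℕ} (hk : 1 ≤ k) (hkv : (Valued.v (k : L) : WithZero (Multiplicative ℤ)) = 1)
    (a : Fin s → MvPolynomial (Fin m) K') (u : Fin m → K') (x : Fin s → K')
    (ha : ∀ i, MvPolynomial.aeval u (a i) ≠ 0) (l : Fin s) (hxl : x l ≠ 0) {M n : ℕ} (hM : 1 ≤ M)
    (h : (Valued.v (algebraMap K' L (∑ i, MvPolynomial.aeval u (a i) * x i ^ k)) :
        WithZero (Multiplicative ℤ)) ≤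
      exp (-(M : ℤ)) * Valued.v (algebraMap K' L (MvPolynomial.aeval u (a l) * x l ^ k)))
    (hn : exp (-(M : ℤ)) * (Valued.v (algebraMap K' L (x l)) : WithZero (Multiplicative ℤ)) ≤
      exp (-(n : ℤ))) :
    ∃ (y : Fin s → L) (N : Set ((Fin m → L) × (Fin s → L))),
      (∀ i, MvPolynomial.aeval (fun j => algebraMap K' L (u j)) (a i) ≠ 0) ∧ y ≠ 0 ∧
      ∑ i, MvPolynomial.aeval (fun j => algebraMap K' L (u j)) (a i) * y i ^ k = 0 ∧
      N ∈ nhds ((fun j => algebraMap K' L (u j)), y) ∧
      ∀ (c : Fin m → K') (z : Fin s → K'),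
        ((fun j => algebraMap K' L (c j)), (fun i => algebraMap K' L (z i))) ∈ N →
        (∀ j, (Valued.v (algebraMap K' L (c j - u j)) : WithZero (Multiplicative ℤ)) ≤
          exp (-(n : ℤ))) ∧
        ∀ i, (Valued.v (algebraMap K' L (z i - x i)) : WithZero (Multiplicative ℤ)) ≤
          exp (-(n : ℤ)) := by
  obtain ⟨y, hy0, hy, hyx⟩ := exact_near hnt hk hkv
    (fun i => algebraMap K' L (MvPolynomial.aeval u (a i))) (fun i => algebraMap K' L (x i)) l
    ((_root_.map_ne_zero _).2 (ha l)) ((_root_.map_ne_zero _).2 hxl) hM (by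
      rw [map_sum, map_mul, map_pow] at h
      simpa only [map_mul, map_pow] using h)
  refine ⟨y, _, fun i h0 => ?_, hy0, ?_, ball_nhds hnt _ (δ := exp (-(n : ℤ))) exp_ne_zero, ?_⟩
  · rw [aeval_alg] at h0
    exact ha i ((_root_.map_eq_zero _).1 h0)
  · rw [← hy]
    exact Finset.sum_congr rfl (fun i _ => by rw [aeval_alg])
  · intro c z hcz
    obtain ⟨h1, h2⟩ := hcz
    refine ⟨fun j => ?_, fun i => ?_⟩
    · rw [map_sub]
      exact (h1 j).le
    · have e : algebraMap K' L (z i - x i) = (algebraMap K' L (z i) - y i) +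
          (y i - algebraMap K' L (x i)) := by
        rw [map_sub]
        ring
      rw [e]
      exact Valuation.map_add_le _ (h2 i).le ((hyx i).trans hn)

end Pool.Agent.H598.FI
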