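import Pool.Agent.H598.FI.Cyc

set_option autoImplicit false

/-!
# Points over constant field extensions close to given local points: the theorem
-/

namespace Pool.Agent.H598.FI

open Finset Polynomial WithZero IsDedekindDomain Module Pool.Agent.H598.FQ Pool.Agent.H598.WA

/-- Weak approximation by points over `E(t)`, for every finite field `F`. -/
theorem ext_explicit {F : Type*} [Field F] [Fintype F] [DecidableEq (RatFunc F)] {k : ℕ}
    (hk : 2 ≤ k) (hchar : k < ringChar F) {m s : ℕ} (hs : 2 * k + 1 ≤ s)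
    (a : Fin s → MvPolynomial (Fin m) (RatFunc F))
    (hA : ∃ u0 : Fin m → RatFunc F, ∀ i, MvPolynomial.aeval u0 (a i) ≠ 0)
    (E : Type*) [Field E] [Algebra F E] [DecidableEq (RatFunc E)]
    [FiniteDimensional F E] (hr : k * 2 ^ (k + 2) ≤ finrank F E)
    (S : Finset (HeightOneSpectrum F[X]))
    (p : ∀ v : HeightOneSpectrum F[X], (Fin m → v.adicCompletion (RatFunc F)) ×
      (Fin s → v.adicCompletion (RatFunc F)))
    (ha : ∀ v ∈ S, ∀ i, MvPolynomial.aeval (p v).1 (a i) ≠ 0) (hx0 : ∀ v ∈ S, (p v).2 ≠ 0)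
    (hx : ∀ v ∈ S, ∑ i, MvPolynomial.aeval (p v).1 (a i) * (p v).2 i ^ k = 0)
    (b : Prop)
    (pi : (Fin m → RatFunc.CompletionAtInfty F) × (Fin s → RatFunc.CompletionAtInfty F))
    (hai : b → ∀ i, MvPolynomial.aeval pi.1 (a i) ≠ 0) (hxi0 : b → pi.2 ≠ 0)
    (hxi : b → ∑ i, MvPolynomial.aeval pi.1 (a i) * pi.2 i ^ k = 0)
    (N : ∀ v : HeightOneSpectrum F[X], Set ((Fin m → v.adicCompletion (RatFunc F)) ×
      (Fin s → v.adicCompletion (RatFunc F))))
    (hN : ∀ v ∈ S, N v ∈ nhds (p v))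
    (Ni : Set ((Fin m → RatFunc.CompletionAtInfty F) × (Fin s → RatFunc.CompletionAtInfty F)))
    (hNi : b → Ni ∈ nhds pi) (n : ℕ) :
    ∃ (c : Fin m → RatFunc E) (z : Fin s → RatFunc E),
      (∀ i, MvPolynomial.aeval c (MvPolynomial.map (em F E) (a i)) ≠ 0) ∧ z ≠ 0 ∧
      ∑ i, MvPolynomial.aeval c (MvPolynomial.map (em F E) (a i)) * z i ^ k = 0 ∧
      (∀ v ∈ S, ∃ (u : Fin m → RatFunc F) (x : Fin s → RatFunc F),
        ((fun j => algebraMap (RatFunc F) (v.adicCompletion (RatFunc F)) (u j)),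
          (fun i => algebraMap (RatFunc F) (v.adicCompletion (RatFunc F)) (x i))) ∈ N v ∧
        ∀ w : HeightOneSpectrum E[X], (gn v).map (algebraMap F E) ∈ w.asIdeal →
          (∀ j, w.valuation (RatFunc E) (c j - em F E (u j)) ≤ exp (-(n : ℤ))) ∧
          ∀ i, w.valuation (RatFunc E) (z i - em F E (x i)) ≤ exp (-(n : ℤ))) ∧
      (b → ∃ (u : Fin m → RatFunc F) (x : Fin s → RatFunc F),
        ((fun j => algebraMap (RatFunc F) (RatFunc.CompletionAtInfty F) (u j)),
          (fun i => algebraMap (RatFunc F) (RatFunc.CompletionAtInfty F) (x i))) ∈ Ni ∧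
        (∀ j, RatFunc.inftyValuation E (c j - em F E (u j)) ≤ exp (-(n : ℤ))) ∧
        ∀ i, RatFunc.inftyValuation E (z i - em F E (x i)) ≤ exp (-(n : ℤ))) := by
  classical
  have hfin : Finite E := Module.finite_of_finite F
  let _ : Fintype E := Fintype.ofFinite E
  have hcard : Fintype.card E = Fintype.card F ^ finrank F E := Module.card_eq_pow_finrank
  have hchE : ∀ i : ℕ, 1 ≤ i → i ≤ k → ((i : ℕ) : E) ≠ 0 := by
    intro i hi hik h0
    have h1 : (algebraMap F E) ((i : ℕ) : F) = 0 := by rw [map_natCast]; exact h0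
    have h2 : ((i : ℕ) : F) = 0 := (_root_.map_eq_zero (algebraMap F E)).1 h1
    have h3 : ringChar F ∣ i := ringChar.dvd h2
    have h4 := Nat.le_of_dvd (by omega) h3
    omega
  have hkE : ((k : ℕ) : E) ≠ 0 := hchE k (by omega) le_rfl
  have hk1 : 1 ≤ k := by omega
  have hq : (8 * k) ^ (k * 2 ^ k) ≤ Fintype.card E := by
    rw [hcard]
    exact ZC.size_of hk (ZC.card_gt hchar) hr
  have hbig : Big (Fintype.card E) k := big_of_le hk hq
  set a' : Fin s → MvPolynomial (Fin m) (RatFunc E) :=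
    fun i => MvPolynomial.map (em F E) (a i) with ha'
  -- approximate points over `K`
  have h1 : ∀ v : HeightOneSpectrum F[X], ∃ (M : ℕ) (u : Fin m → RatFunc F)
      (x : Fin s → RatFunc F) (l : Fin s), v ∈ S → (1 ≤ M ∧
      ((fun j => algebraMap (RatFunc F) (v.adicCompletion (RatFunc F)) (u j)),
        (fun i => algebraMap (RatFunc F) (v.adicCompletion (RatFunc F)) (x i))) ∈ N v ∧
      (∀ i, MvPolynomial.aeval u (a i) ≠ 0) ∧ x l ≠ 0 ∧
      v.valuation (RatFunc F) (∑ i, MvPolynomial.aeval u (a i) * x i ^ k) ≤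
        exp (-(M : ℤ)) * v.valuation (RatFunc F) (MvPolynomial.aeval u (a l) * x l ^ k) ∧
      exp (-(M : ℤ)) * v.valuation (RatFunc F) (x l) ≤ exp (-(n : ℤ))) := by
    intro v
    by_cases hv : v ∈ S
    · obtain ⟨M, u, x, l, b1, b2, b3, b4, b5, b6⟩ := klevel (dense_fin v) (nt_fin v) a
        (p v).1 (p v).2 (ha v hv) (hx0 v hv) (hx v hv) (N v) (hN v hv) n
      rw [val_fin, val_fin] at b5
      rw [val_fin] at b6
      exact ⟨M, u, x, l, fun _ => ⟨b1, b2, b3, b4, b5, b6⟩⟩
    · exact ⟨0, 0, 0, ⟨0, by omega⟩, fun h => absurd h hv⟩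
  choose M u x l hux using h1
  obtain ⟨ui, c3⟩ := hA
  -- a global point, used at the other places
  obtain ⟨z0, hz00, hz0⟩ := ZC.point_ext hk hchar hs E hr
    (fun i => em F E (MvPolynomial.aeval ui (a i)))
  -- the local data over `E(t)`
  have haem : ∀ (y : Fin m → RatFunc F), (∀ i, MvPolynomial.aeval y (a i) ≠ 0) →
      ∀ i, MvPolynomial.aeval (fun j => em F E (y j)) (a' i) ≠ 0 := by
    intro y hy i
    rw [ha', aeval_em]
    exact (_root_.map_ne_zero _).2 (hy i)
  have hsem : ∀ (y : Fin m → RatFunc F) (t : Fin s → RatFunc F),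
      ∑ i, MvPolynomial.aeval (fun j => em F E (y j)) (a' i) * em F E (t i) ^ k =
        em F E (∑ i, MvPolynomial.aeval y (a i) * t i ^ k) := by
    intro y t
    rw [map_sum]
    exact Finset.sum_congr rfl (fun i _ => by rw [ha', aeval_em, map_mul, map_pow])
  have h2 : ∀ w : HeightOneSpectrum E[X], ∃ (P : (Fin m → w.adicCompletion (RatFunc E)) ×
      (Fin s → w.adicCompletion (RatFunc E)))
      (N' : Set ((Fin m → w.adicCompletion (RatFunc E)) ×
        (Fin s → w.adicCompletion (RatFunc E)))),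
      (∀ i, MvPolynomial.aeval P.1 (a' i) ≠ 0) ∧ P.2 ≠ 0 ∧
      ∑ i, MvPolynomial.aeval P.1 (a' i) * P.2 i ^ k = 0 ∧ N' ∈ nhds P ∧
      ∀ v ∈ S, (gn v).map (algebraMap F E) ∈ w.asIdeal →
        ∀ (c : Fin m → RatFunc E) (z : Fin s → RatFunc E),
          ((fun j => algebraMap (RatFunc E) (w.adicCompletion (RatFunc E)) (c j)),
            (fun i => algebraMap (RatFunc E) (w.adicCompletion (RatFunc E)) (z i))) ∈ N' →
          (∀ j, w.valuation (RatFunc E) (c j - em F E (u v j)) ≤ exp (-(n : ℤ))) ∧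
          ∀ i, w.valuation (RatFunc E) (z i - em F E (x v i)) ≤ exp (-(n : ℤ)) := by
    intro w
    by_cases hw : ∃ v ∈ S, (gn v).map (algebraMap F E) ∈ w.asIdeal
    · obtain ⟨v, hv, hvw⟩ := hw
      obtain ⟨b1, b2, b3, b4, b5, b6⟩ := hux v hv
      obtain ⟨y, N', d1, d2, d3, d4, d5⟩ := local_exact (nt_fin w) hk1 (kv_fin hkE w) a'
        (fun j => em F E (u v j)) (fun i => em F E (x v i)) (haem _ b3) (l v)
        ((_root_.map_ne_zero _).2 b4) (M := M v) (n := n) b1
        (by
          rw [hsem, val_fin, val_fin, ha', aeval_em, ← map_pow, ← map_mul]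
          have e1 := val_ext F E v w hvw (∑ i, MvPolynomial.aeval (u v) (a i) * x v i ^ k)
          have e2 := val_ext F E v w hvw (MvPolynomial.aeval (u v) (a (l v)) * x v (l v) ^ k)
          rw [em, e1, e2]
          exact b5)
        (by
          rw [val_fin]
          have e1 := val_ext F E v w hvw (x v (l v))
          rw [em, e1]
          exact b6)
      refine ⟨((fun j => algebraMap (RatFunc E) (w.adicCompletion (RatFunc E))
        (em F E (u v j))), y), N', d1, d2, d3, d4, ?_⟩
      intro v' _ hv'w c z hcz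
      have hvv' : v = v' := over_unique F E v v' w hvw hv'w
      subst hvv'
      obtain ⟨e1, e2⟩ := d5 c z hcz
      refine ⟨fun j => ?_, fun i => ?_⟩
      · rw [← val_fin]
        exact e1 j
      · rw [← val_fin]
        exact e2 i
    · refine ⟨((fun j => algebraMap (RatFunc E) (w.adicCompletion (RatFunc E))
        (em F E (ui j))), (fun i => algebraMap (RatFunc E) (w.adicCompletion (RatFunc E))
        (z0 i))), Set.univ, ?_, ?_, ?_, Filter.univ_mem, fun v hv hvw => absurd ⟨v, hv, hvw⟩ hw⟩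
      · intro i h0
        have h0' : MvPolynomial.aeval (fun j => algebraMap (RatFunc E)
          (w.adicCompletion (RatFunc E)) (em F E (ui j))) (a' i) = 0 := h0
        rw [aeval_alg] at h0'
        exact haem ui c3 i ((_root_.map_eq_zero _).1 h0')
      · intro h0
        apply hz00
        funext i
        have h3 : algebraMap (RatFunc E) (w.adicCompletion (RatFunc E)) (z0 i) = 0 :=
          congrFun h0 i
        exact (_root_.map_eq_zero _).1 h3
      · have h4 := congrArg (algebraMap (RatFunc E) (w.adicCompletion (RatFunc E))) hz0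
        rw [map_zero, map_sum] at h4
        refine Eq.trans (Finset.sum_congr rfl (fun i _ => ?_)) h4
        show MvPolynomial.aeval (fun j => algebraMap (RatFunc E)
          (w.adicCompletion (RatFunc E)) (em F E (ui j))) (a' i) *
            algebraMap (RatFunc E) (w.adicCompletion (RatFunc E)) (z0 i) ^ k = _
        rw [aeval_alg, ha', aeval_em, map_mul, map_pow]
  choose P N' g1 g2 g3 g4 g5 using h2
  have hcomp := complete_inf (F := E)
  have h3 : ∃ (P : (Fin m → RatFunc.CompletionAtInfty E) × (Fin s → RatFunc.CompletionAtInfty E))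
      (N' : Set ((Fin m → RatFunc.CompletionAtInfty E) × (Fin s → RatFunc.CompletionAtInfty E))),
      (∀ i, MvPolynomial.aeval P.1 (a' i) ≠ 0) ∧ P.2 ≠ 0 ∧
      ∑ i, MvPolynomial.aeval P.1 (a' i) * P.2 i ^ k = 0 ∧ N' ∈ nhds P ∧
      (b → ∃ (u : Fin m → RatFunc F) (x : Fin s → RatFunc F),
        ((fun j => algebraMap (RatFunc F) (RatFunc.CompletionAtInfty F) (u j)),
          (fun i => algebraMap (RatFunc F) (RatFunc.CompletionAtInfty F) (x i))) ∈ Ni ∧
        ∀ (c : Fin m → RatFunc E) (z : Fin s → RatFunc E),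
          ((fun j => algebraMap (RatFunc E) (RatFunc.CompletionAtInfty E) (c j)),
            (fun i => algebraMap (RatFunc E) (RatFunc.CompletionAtInfty E) (z i))) ∈ N' →
          (∀ j, RatFunc.inftyValuation E (c j - em F E (u j)) ≤ exp (-(n : ℤ))) ∧
          ∀ i, RatFunc.inftyValuation E (z i - em F E (x i)) ≤ exp (-(n : ℤ))) := by
    by_cases hb : b
    · obtain ⟨Mi, vi, xi, li, b1, b2, b3, b4, b5, b6⟩ := klevel dense_inf nt_inf a
        pi.1 pi.2 (hai hb) (hxi0 hb) (hxi hb) Ni (hNi hb) n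
      rw [val_inf, val_inf] at b5
      rw [val_inf] at b6
      obtain ⟨y, N', d1, d2, d3, d4, d5⟩ := local_exact (L := RatFunc.CompletionAtInfty E) nt_inf
        hk1 (kv_inf hkE) a' (fun j => em F E (vi j)) (fun i => em F E (xi i)) (haem _ b3) li
        ((_root_.map_ne_zero _).2 b4) (M := Mi) (n := n) b1
        (by
          rw [hsem, val_inf, val_inf, ha', aeval_em, ← map_pow, ← map_mul]
          have e1 := inf_ext F E (∑ i, MvPolynomial.aeval vi (a i) * xi i ^ k)
          have e2 := inf_ext F E (MvPolynomial.aeval vi (a li) * xi li ^ k)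
          rw [em, e1, e2]
          exact b5)
        (by
          rw [val_inf]
          have e1 := inf_ext F E (xi li)
          rw [em, e1]
          exact b6)
      refine ⟨(_, y), N', d1, d2, d3, d4, fun _ => ⟨vi, xi, b2, fun c z hcz => ?_⟩⟩
      obtain ⟨e1, e2⟩ := d5 c z hcz
      refine ⟨fun j => ?_, fun i => ?_⟩
      · rw [← val_inf]
        exact e1 j
      · rw [← val_inf]
        exact e2 i
    · refine ⟨((fun j => algebraMap (RatFunc E) (RatFunc.CompletionAtInfty E)
        (em F E (ui j))), (fun i => algebraMap (RatFunc E) (RatFunc.CompletionAtInfty E)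
        (z0 i))), Set.univ, ?_, ?_, ?_, Filter.univ_mem, fun h => absurd h hb⟩
      · intro i h0
        have h0' : MvPolynomial.aeval (fun j => algebraMap (RatFunc E)
          (RatFunc.CompletionAtInfty E) (em F E (ui j))) (a' i) = 0 := h0
        rw [aeval_alg] at h0'
        exact haem ui c3 i ((_root_.map_eq_zero _).1 h0')
      · intro h0
        apply hz00
        funext i
        have h3 : algebraMap (RatFunc E) (RatFunc.CompletionAtInfty E) (z0 i) = 0 :=
          congrFun h0 i
        exact (_root_.map_eq_zero _).1 h3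
      · have h4 := congrArg (algebraMap (RatFunc E) (RatFunc.CompletionAtInfty E)) hz0
        rw [map_zero, map_sum] at h4
        refine Eq.trans (Finset.sum_congr rfl (fun i _ => ?_)) h4
        show MvPolynomial.aeval (fun j => algebraMap (RatFunc E)
          (RatFunc.CompletionAtInfty E) (em F E (ui j))) (a' i) *
            algebraMap (RatFunc E) (RatFunc.CompletionAtInfty E) (z0 i) ^ k = _
        rw [aeval_alg, ha', aeval_em, map_mul, map_pow]
  obtain ⟨Pi, Ni', d1, d2, d3, d4, d5⟩ := h3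
  set S' : Finset (HeightOneSpectrum E[X]) :=
    S.biUnion (fun v => (over_finite F E v).toFinset) with hS'
  obtain ⟨W, Wi, hW, hWi, hc⟩ := fib_explicit hk hchE hbig hs a' S' (fun w => (P w).1)
    (fun w => (P w).2) g1 g2 g3 Pi.1 Pi.2 d1 d2 d3 N' g4 Ni' d4
  obtain ⟨c, hcS, hci⟩ := wa_affine S' (fun w => (P w).1) Pi.1 W hW Wi hWi
  obtain ⟨z, hz1, hz2, hz3, hz4, hz5⟩ := hc c hcS hci
  refine ⟨c, z, hz1, hz2, hz3, fun v hv => ⟨u v, x v, (hux v hv).2.1, fun w hvw => ?_⟩,
    fun hb => ?_⟩
  · have hwS' : w ∈ S' := by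
      rw [hS', Finset.mem_biUnion]
      exact ⟨v, hv, (Set.Finite.mem_toFinset _).2 hvw⟩
    exact g5 w v hv hvw c z (hz4 w hwS')
  · obtain ⟨vi, xi, e1, e2⟩ := d5 hb
    exact ⟨vi, xi, e1, e2 c z hz5⟩

end Pool.Agent.H598.FI
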