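import Pool.Agent.H598.WA.Final
import Pool.Agent.H598.ZC.Ext

set_option autoImplicit false

namespace Pool.Agent.H598.FI

open Polynomial WithZero IsDedekindDomain Pool.Agent.H598.WA

variable (F E : Type*) [Field F] [Field E] [Algebra F E]

section aux

attribute [local instance] Polynomial.algebra

/-- The embedding of `F(t)` into `E(t)` on polynomials. -/
theorem algE_poly (p : F[X]) :
    @algebraMap (RatFunc F) (RatFunc E) _ _ (ZC.algE F E) (algebraMap F[X] (RatFunc F) p)
      = algebraMap E[X] (RatFunc E) (p.map (algebraMap F E)) := by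
  let _ := ZC.algE F E
  have h : algebraMap (RatFunc F) (RatFunc E) (algebraMap F[X] (RatFunc F) p)
      = algebraMap F[X] (RatFunc E) p :=
    IsFractionRing.lift_algebraMap (FaithfulSMul.algebraMap_injective F[X] (RatFunc E)) p
  rw [h]
  have h2 : algebraMap F[X] (RatFunc E) p = algebraMap E[X] (RatFunc E) (algebraMap F[X] E[X] p) :=
    rfl
  rw [h2]
  have h3 : algebraMap F[X] E[X] p = p.map (algebraMap F E) := by
    rw [Polynomial.algebraMap_def]
    simp
  rw [h3]

end aux

variable {F E} in
/-- A polynomial which is not divisible by the generator is a unit at the place. -/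
theorem val_of_not_dvd (v : HeightOneSpectrum F[X]) (q : F[X]) (hq : ¬ gn v ∣ q) :
    v.valuation (RatFunc F) (algebraMap F[X] (RatFunc F) q) = 1 := by
  apply le_antisymm (int_le_one v _)
  by_contra hcon
  push Not at hcon
  rw [int_lt_iff] at hcon
  exact hq hcon

variable {F E} in
/-- The generator of a place of `F(t)` at a place of `E(t)` above it. -/
theorem val_gn_ext [Fintype F] (v : HeightOneSpectrum F[X]) (w : HeightOneSpectrum E[X])
    (h : (gn v).map (algebraMap F E) ∈ w.asIdeal) :
    w.valuation (RatFunc E) (algebraMap E[X] (RatFunc E) ((gn v).map (algebraMap F E)))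
      = exp (-1 : ℤ) := by
  have hsep : (gn v).Separable := PerfectField.separable_of_irreducible (gn_irr v)
  have hsq : Squarefree ((gn v).map (algebraMap F E)) := (hsep.map).squarefree
  rw [gn_span, Ideal.mem_span_singleton] at h
  obtain ⟨R, hR⟩ := h
  have hnd : ¬ gn w ∣ R := by
    rintro ⟨R', hR'⟩
    have h1 : gn w * gn w ∣ (gn v).map (algebraMap F E) := ⟨R', by rw [hR, hR', mul_assoc]⟩
    exact (gn_irr w).not_isUnit (hsq _ h1)
  rw [hR, map_mul, map_mul, val_gn_self, val_of_not_dvd w R hnd, mul_one]

/-- `val_ext` for polynomials -/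
theorem val_ext_poly [Fintype F] (v : HeightOneSpectrum F[X]) (w : HeightOneSpectrum E[X])
    (h : (gn v).map (algebraMap F E) ∈ w.asIdeal) (p : F[X]) (hp : p ≠ 0) :
    w.valuation (RatFunc E) (algebraMap E[X] (RatFunc E) (p.map (algebraMap F E)))
      = v.valuation (RatFunc F) (algebraMap F[X] (RatFunc F) p) := by
  obtain ⟨e, q, hq, hpq⟩ := WfDvdMonoid.max_power_factor hp (gn_irr v)
  have hcop : IsCoprime (gn v) q := ((gn_irr v).coprime_iff_not_dvd).2 hq
  have hcop2 : IsCoprime ((gn v).map (algebraMap F E)) (q.map (algebraMap F E)) :=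
    hcop.map (Polynomial.mapRingHom (algebraMap F E))
  have hqw : ¬ gn w ∣ q.map (algebraMap F E) := by
    intro hd
    have h1 : gn w ∣ (gn v).map (algebraMap F E) := by
      rw [gn_span, Ideal.mem_span_singleton] at h
      exact h
    exact (gn_irr w).not_isUnit (hcop2.isUnit_of_dvd' h1 hd)
  rw [hpq, Polynomial.map_mul, Polynomial.map_pow, map_mul, map_mul, map_mul, map_mul, map_pow,
    map_pow, map_pow, map_pow, val_gn_ext v w h, val_gn_self, val_of_not_dvd v q hq,
    val_of_not_dvd w _ hqw]

/-- The places of `E(t)` over the place `v` of `F(t)` induce the valuation of `v`. -/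
theorem val_ext [Fintype F] (v : HeightOneSpectrum F[X]) (w : HeightOneSpectrum E[X])
    (h : (gn v).map (algebraMap F E) ∈ w.asIdeal) (c : RatFunc F) :
    w.valuation (RatFunc E) (@algebraMap (RatFunc F) (RatFunc E) _ _ (ZC.algE F E) c)
      = v.valuation (RatFunc F) c := by
  let _ := ZC.algE F E
  by_cases hc : c = 0
  · rw [hc, map_zero, map_zero, map_zero]
  · have hn : c.num ≠ 0 := RatFunc.num_ne_zero hc
    have hd : c.denom ≠ 0 := c.denom_ne_zero
    have h1 := RatFunc.num_div_denom c
    rw [← h1, map_div₀, map_div₀, map_div₀]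
    have h2 := algE_poly F E c.num
    have h3 := algE_poly F E c.denom
    rw [h2, h3, val_ext_poly F E v w h _ hn, val_ext_poly F E v w h _ hd]

/-- The same for the place at infinity. -/
theorem inf_ext [DecidableEq (RatFunc F)] [DecidableEq (RatFunc E)] (c : RatFunc F) :
    RatFunc.inftyValuation E (@algebraMap (RatFunc F) (RatFunc E) _ _ (ZC.algE F E) c)
      = RatFunc.inftyValuation F c := by
  let _ := ZC.algE F E
  by_cases hc : c = 0
  · rw [hc, map_zero, map_zero, map_zero]
  · have hn : c.num ≠ 0 := RatFunc.num_ne_zero hc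
    have hd : c.denom ≠ 0 := c.denom_ne_zero
    have h1 := RatFunc.num_div_denom c
    have hinj := (algebraMap F E).injective
    have hn' : c.num.map (algebraMap F E) ≠ 0 := (Polynomial.map_ne_zero_iff hinj).2 hn
    have hd' : c.denom.map (algebraMap F E) ≠ 0 := (Polynomial.map_ne_zero_iff hinj).2 hd
    rw [← h1, map_div₀, map_div₀, map_div₀]
    have h2 := algE_poly F E c.num
    have h3 := algE_poly F E c.denom
    rw [h2, h3, val_inf_poly hn, val_inf_poly hd, val_inf_poly hn', val_inf_poly hd',
      Polynomial.natDegree_map, Polynomial.natDegree_map]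

/-- There are finitely many places of `E(t)` over a place of `F(t)`. -/
theorem over_finite (v : HeightOneSpectrum F[X]) :
    {w : HeightOneSpectrum E[X] | (gn v).map (algebraMap F E) ∈ w.asIdeal}.Finite := by
  classical
  have hP : (gn v).map (algebraMap F E) ≠ 0 :=
    (Polynomial.map_ne_zero_iff (algebraMap F E).injective).2 (gn_irr v).ne_zero
  refine Set.Finite.subset (finite_bad (algebraMap E[X] (RatFunc E) ((gn v).map (algebraMap F E)))
    (RatFunc.algebraMap_ne_zero hP)) ?_
  intro w hw
  have hw' : (gn v).map (algebraMap F E) ∈ w.asIdeal := hw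
  rw [gn_span, Ideal.mem_span_singleton] at hw'
  exact ne_of_lt ((int_lt_iff w _).2 hw')

end Pool.Agent.H598.FI
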