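import Pool.Agent.H598.FI.Aff
import Pool.Agent.H598.FI.Ext

set_option autoImplicit false

/-!
# From local points over `K` to local points over an unramified extension
-/

namespace Pool.Agent.H598.FI

open Finset Polynomial WithZero IsDedekindDomain Pool.Agent.H598.WA

/-- An exact zero near an approximate zero. -/
lemma exact_near {L : Type*} [Field L] [Valued L (WithZero (Multiplicative ℤ))] [CompleteSpace L]
    (hnt : ∃ c : L, c ≠ 0 ∧ (Valued.v c : WithZero (Multiplicative ℤ)) < 1)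
    {s k : ℕ} (hk : 1 ≤ k) (hkv : (Valued.v (k : L) : WithZero (Multiplicative ℤ)) = 1)
    (b x : Fin s → L) (l : Fin s) (hb : b l ≠ 0) (hxl : x l ≠ 0) {M : ℕ} (hM : 1 ≤ M)
    (h : (Valued.v (∑ i, b i * x i ^ k) : WithZero (Multiplicative ℤ)) ≤
      exp (-(M : ℤ)) * Valued.v (b l * x l ^ k)) :
    ∃ y : Fin s → L, y ≠ 0 ∧ ∑ i, b i * y i ^ k = 0 ∧
      ∀ i, (Valued.v (y i - x i) : WithZero (Multiplicative ℤ)) ≤
        exp (-(M : ℤ)) * Valued.v (x l) := by
  classical
  have hbx : b l * x l ^ k ≠ 0 := mul_ne_zero hb (pow_ne_zero _ hxl)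
  obtain ⟨A, hA⟩ : ∃ A, A = ∑ i ∈ Finset.univ.erase l, b i * x i ^ k := ⟨_, rfl⟩
  have hsum : b l * x l ^ k + A = ∑ i, b i * x i ^ k := by
    rw [hA]
    exact Finset.add_sum_erase _ (fun i => b i * x i ^ k) (Finset.mem_univ l)
  have hc : (Valued.v (-A / (b l * x l ^ k) - 1) : WithZero (Multiplicative ℤ)) ≤
      exp (-(M : ℤ)) := by
    have h1 : -A / (b l * x l ^ k) - 1 = -(∑ i, b i * x i ^ k) / (b l * x l ^ k) := by
      rw [← hsum]
      field_simp
      ring
    rw [h1, map_div₀, Valuation.map_neg]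
    exact div_le_of_le_mul₀ zero_le zero_le h
  obtain ⟨t, ht1, ht2⟩ := kth_root hnt hk hkv hM _ hc
  have hM3 : (exp (-(M : ℤ)) : WithZero (Multiplicative ℤ)) < 1 := by
    rw [← exp_zero, exp_lt_exp]
    omega
  have ht0 : t ≠ 0 := by
    rintro rfl
    rw [zero_sub, Valuation.map_neg, map_one] at ht1
    exact absurd (lt_of_le_of_lt ht1 hM3) (lt_irrefl _)
  refine ⟨Function.update x l (t * x l), ?_, ?_, ?_⟩
  · intro h0
    have h1 := congrFun h0 l
    rw [Function.update_self] at h1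
    exact mul_ne_zero ht0 hxl h1
  · rw [← Finset.add_sum_erase _ _ (Finset.mem_univ l), Function.update_self]
    have h1 : ∑ i ∈ Finset.univ.erase l, b i * Function.update x l (t * x l) i ^ k = A := by
      rw [hA]
      refine Finset.sum_congr rfl fun i hi => ?_
      rw [Function.update_of_ne (Finset.ne_of_mem_erase hi)]
    rw [h1, mul_pow, ht2]
    field_simp
    ring
  · intro i
    by_cases hi : i = l
    · subst hi
      rw [Function.update_self]
      have e : t * x i - x i = (t - 1) * x i := by ring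
      rw [e, map_mul]
      exact mul_le_mul' ht1 le_rfl
    · rw [Function.update_of_ne hi, sub_self, map_zero]
      exact zero_le

/-- Approximate points with coordinates in the global field. -/
lemma klevel {K L : Type*} [Field K] [Field L] [Valued L (WithZero (Multiplicative ℤ))]
    [Algebra K L] (hd : DenseRange (algebraMap K L))
    (hnt : ∃ c : L, c ≠ 0 ∧ (Valued.v c : WithZero (Multiplicative ℤ)) < 1)
    {s k m : ℕ} (a : Fin s → MvPolynomial (Fin m) K) (u : Fin m → L) (x : Fin s → L)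
    (ha : ∀ i, MvPolynomial.aeval u (a i) ≠ 0) (hx0 : x ≠ 0)
    (hx : ∑ i, MvPolynomial.aeval u (a i) * x i ^ k = 0)
    (N : Set ((Fin m → L) × (Fin s → L))) (hN : N ∈ nhds (u, x)) (n : ℕ) :
    ∃ (M : ℕ) (u' : Fin m → K) (x' : Fin s → K) (l : Fin s), 1 ≤ M ∧
      ((fun j => algebraMap K L (u' j)), (fun i => algebraMap K L (x' i))) ∈ N ∧
      (∀ i, MvPolynomial.aeval u' (a i) ≠ 0) ∧ x' l ≠ 0 ∧
      (Valued.v (algebraMap K L (∑ i, MvPolynomial.aeval u' (a i) * x' i ^ k)) :
        WithZero (Multiplicative ℤ)) ≤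
        exp (-(M : ℤ)) * Valued.v (algebraMap K L (MvPolynomial.aeval u' (a l) * x' l ^ k)) ∧
      exp (-(M : ℤ)) * (Valued.v (algebraMap K L (x' l)) : WithZero (Multiplicative ℤ)) ≤
        exp (-(n : ℤ)) := by
  classical
  obtain ⟨l, hl⟩ := Function.ne_iff.1 hx0
  have hl : x l ≠ 0 := hl
  obtain ⟨M, hM1, hM2⟩ := ap_exists_M (Valued.v (x l)) (exp (-(n : ℤ))) exp_ne_zero
  obtain ⟨f, hf⟩ : ∃ f : (Fin m → L) × (Fin s → L) → L, ∀ p, f p =
      (∑ i, MvPolynomial.aeval p.1 (a i) * p.2 i ^ k) /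
        (MvPolynomial.aeval p.1 (a l) * p.2 l ^ k) := ⟨_, fun _ => rfl⟩
  have hcc : ∀ i, Continuous (fun p : (Fin m → L) × (Fin s → L) =>
      MvPolynomial.aeval p.1 (a i) * p.2 i ^ k) := fun i =>
    ((cont_aeval (a i)).comp continuous_fst).mul
      (((continuous_apply i).comp continuous_snd).pow k)
  have hfc : ContinuousAt f (u, x) := by
    have h1 : f = fun p => (∑ i, MvPolynomial.aeval p.1 (a i) * p.2 i ^ k) /
        (MvPolynomial.aeval p.1 (a l) * p.2 l ^ k) := funext hf
    rw [h1]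
    refine ContinuousAt.div ?_ (hcc l).continuousAt (mul_ne_zero (ha l) (pow_ne_zero _ hl))
    exact (continuous_finsetSum _ (fun i _ => hcc i)).continuousAt
  have hf0 : f (u, x) = 0 := by rw [hf, hx, zero_div]
  have hT1 : {p | (Valued.v (f p) : WithZero (Multiplicative ℤ)) < exp (-(M : ℤ))} ∈
      nhds (u, x) := by
    have h1 := hfc.preimage_mem_nhds (ap_nhds (K := L) (L := L) hnt
      (δ := exp (-(M : ℤ))) exp_ne_zero (f (u, x)))
    rw [hf0] at h1
    refine Filter.mem_of_superset h1 (fun p hp => ?_)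
    have h2 : (Valued.v (f p - 0) : WithZero (Multiplicative ℤ)) < exp (-(M : ℤ)) := hp
    rwa [sub_zero] at h2
  have hT2 : {p : (Fin m → L) × (Fin s → L) | (Valued.v (p.2 l - x l) :
      WithZero (Multiplicative ℤ)) < Valued.v (x l)} ∈ nhds (u, x) := by
    have h1 : Continuous (fun p : (Fin m → L) × (Fin s → L) => p.2 l) :=
      (continuous_apply l).comp continuous_snd
    exact h1.continuousAt.preimage_mem_nhds (x := (u, x)) (ap_nhds (K := L) (L := L) hnt
      (δ := Valued.v (x l)) ((Valuation.ne_zero_iff _).2 hl) (x l))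
  have hT3 : {p : (Fin m → L) × (Fin s → L) | ∀ i, MvPolynomial.aeval p.1 (a i) ≠ 0} ∈
      nhds (u, x) := by
    have h3 : IsOpen {p : (Fin m → L) × (Fin s → L) | ∀ i, MvPolynomial.aeval p.1 (a i) ≠ 0} := by
      have h4 : {p : (Fin m → L) × (Fin s → L) | ∀ i, MvPolynomial.aeval p.1 (a i) ≠ 0} =
          ⋂ i : Fin s, {p : (Fin m → L) × (Fin s → L) | MvPolynomial.aeval p.1 (a i) ≠ 0} := by
        ext p
        simp
      rw [h4]
      exact isOpen_iInter_of_finite
        (fun i => isOpen_ne.preimage ((cont_aeval (a i)).comp continuous_fst))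
    exact h3.mem_nhds ha
  have hdd : DenseRange (Prod.map (Pi.map (fun (_ : Fin m) => (algebraMap K L)))
      (Pi.map (fun (_ : Fin s) => (algebraMap K L)))) :=
    (DenseRange.piMap fun _ => hd).prodMap (DenseRange.piMap fun _ => hd)
  obtain ⟨y, ⟨hy1, hy2, hy3, hy4⟩, ⟨u', x'⟩, rfl⟩ := mem_closure_iff_nhds.1 (hdd (u, x)) _
    (Filter.inter_mem hN (Filter.inter_mem hT1 (Filter.inter_mem hT2 hT3)))
  have hxl : (Valued.v (algebraMap K L (x' l)) : WithZero (Multiplicative ℤ)) =
      Valued.v (x l) := Valuation.map_eq_of_sub_lt _ hy3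
  have hx'l : x' l ≠ 0 := by
    intro h0
    rw [h0, map_zero, map_zero] at hxl
    exact (Valuation.ne_zero_iff _).2 hl hxl.symm
  have ha' : ∀ i, MvPolynomial.aeval u' (a i) ≠ 0 := by
    intro i h0
    apply hy4 i
    show MvPolynomial.aeval (fun j => algebraMap K L (u' j)) (a i) = 0
    rw [aeval_alg, h0, map_zero]
  refine ⟨M, u', x', l, hM1, hy1, ha', hx'l, ?_, ?_⟩
  · have h1 : (Valued.v (f ((fun j => algebraMap K L (u' j)), (fun i => algebraMap K L (x' i)))) :
        WithZero (Multiplicative ℤ)) < exp (-(M : ℤ)) := hy2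
    have h2 : f ((fun j => algebraMap K L (u' j)), (fun i => algebraMap K L (x' i))) =
        algebraMap K L (∑ i, MvPolynomial.aeval u' (a i) * x' i ^ k) /
          algebraMap K L (MvPolynomial.aeval u' (a l) * x' l ^ k) := by
      rw [hf, map_sum, map_mul, map_pow, ← aeval_alg]
      congr 1
      exact Finset.sum_congr rfl (fun i _ => by rw [map_mul, map_pow, ← aeval_alg])
    rw [h2, map_div₀] at h1
    have h3 : (0 : WithZero (Multiplicative ℤ)) <
        Valued.v (algebraMap K L (MvPolynomial.aeval u' (a l) * x' l ^ k)) :=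
      (Valuation.pos_iff _).2 ((_root_.map_ne_zero _).2
        (mul_ne_zero (ha' l) (pow_ne_zero _ hx'l)))
    exact ((div_lt_iff₀ h3).1 h1).le
  · rw [hxl]
    exact hM2.le

end Pool.Agent.H598.FI
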