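import Pool.Agent.H598.FI.Root

set_option autoImplicit false

/-!
# Zeros of diagonal forms vary continuously with the coefficients
-/

namespace Pool.Agent.H598.FI

open WithZero Pool.Agent.H598.WA

/-- Local zeros vary continuously with the coefficients. -/
theorem lift_near {L : Type*} [Field L] [Valued L (WithZero (Multiplicative ℤ))] [CompleteSpace L]
    (hnt : ∃ c : L, c ≠ 0 ∧ (Valued.v c : WithZero (Multiplicative ℤ)) < 1)
    {s k : ℕ} (hk : 1 ≤ k) (hkv : (Valued.v (k : L) : WithZero (Multiplicative ℤ)) = 1)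
    (b : Fin s → L) (hb : ∀ i, b i ≠ 0) (x : Fin s → L) (hx0 : x ≠ 0)
    (hx : ∑ i, b i * x i ^ k = 0) (U : Set (Fin s → L)) (hU : U ∈ nhds x) :
    ∃ W ∈ nhds b, ∀ b' ∈ W, ∃ x' : Fin s → L, x' ≠ 0 ∧ ∑ i, b' i * x' i ^ k = 0 ∧ U ∈ nhds x' := by
  classical
  obtain ⟨l, hl⟩ := Function.ne_iff.1 hx0
  have hl : x l ≠ 0 := hl
  obtain ⟨γ, hγ0, hγ⟩ := ap_pi l hU
  obtain ⟨M, hM1, hM2⟩ := ap_exists_M (Valued.v (x l)) γ hγ0
  obtain ⟨g, hg⟩ : ∃ g : (Fin s → L) → L, ∀ y, g y =
      -(∑ i ∈ Finset.univ.erase l, y i * x i ^ k) / (y l * x l ^ k) := ⟨_, fun _ => rfl⟩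
  have hlk : x l ^ k ≠ 0 := pow_ne_zero _ hl
  have hgb : g b = 1 := by
    rw [hg, div_eq_one_iff_eq (mul_ne_zero (hb l) hlk)]
    have h1 := Finset.add_sum_erase (Finset.univ : Finset (Fin s)) (fun i => b i * x i ^ k)
      (Finset.mem_univ l)
    rw [hx] at h1
    exact (eq_neg_of_add_eq_zero_left h1).symm
  have hgc : ContinuousAt g b := by
    have h1 : g = fun y => -(∑ i ∈ Finset.univ.erase l, y i * x i ^ k) / (y l * x l ^ k) :=
      funext hg
    rw [h1]
    refine ContinuousAt.div ?_ ?_ (mul_ne_zero (hb l) hlk)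
    · refine ContinuousAt.neg ?_
      refine tendsto_finsetSum _ (fun i _ => ?_)
      exact ((continuous_apply i).mul continuous_const).continuousAt
    · exact ((continuous_apply l).mul continuous_const).continuousAt
  have hW1 : {y : Fin s → L | (Valued.v (g y - 1) : WithZero (Multiplicative ℤ)) < exp (-(M : ℤ))} ∈
      nhds b := by
    have h1 := hgc.preimage_mem_nhds (ap_nhds (K := L) (L := L) hnt
      (δ := exp (-(M : ℤ))) exp_ne_zero (g b))
    rw [hgb] at h1
    exact h1
  have hW2 : {y : Fin s → L | y l ≠ 0} ∈ nhds b := by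
    have h1 : IsOpen {y : Fin s → L | y l ≠ 0} := isOpen_ne.preimage (continuous_apply l)
    exact h1.mem_nhds (hb l)
  refine ⟨_, Filter.inter_mem hW1 hW2, fun b' hb' => ?_⟩
  obtain ⟨hb1, hb2⟩ := hb'
  obtain ⟨t, ht1, ht2⟩ := kth_root hnt hk hkv hM1 (g b') (le_of_lt hb1)
  have hM3 : (exp (-(M : ℤ)) : WithZero (Multiplicative ℤ)) < 1 := by
    rw [← exp_zero, exp_lt_exp]
    omega
  have ht0 : t ≠ 0 := by
    rintro rfl
    rw [zero_sub, Valuation.map_neg, map_one] at ht1
    exact absurd (lt_of_le_of_lt ht1 hM3) (lt_irrefl _)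
  refine ⟨Function.update x l (t * x l), ?_, ?_, ?_⟩
  · intro h0
    have h1 := congrFun h0 l
    rw [Function.update_self] at h1
    exact mul_ne_zero ht0 hl h1
  · rw [← Finset.add_sum_erase _ _ (Finset.mem_univ l), Function.update_self]
    have h1 : ∑ i ∈ Finset.univ.erase l, b' i * Function.update x l (t * x l) i ^ k =
        ∑ i ∈ Finset.univ.erase l, b' i * x i ^ k := by
      refine Finset.sum_congr rfl fun i hi => ?_
      rw [Function.update_of_ne (Finset.ne_of_mem_erase hi)]
    have hb2 : b' l ≠ 0 := hb2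
    rw [h1, mul_pow, ht2, hg]
    field_simp
    ring
  · have h2 : Set.univ.pi (fun i => {y : L | (Valued.v (y - Function.update x l (t * x l) i) :
        WithZero (Multiplicative ℤ)) < γ}) ∈ nhds (Function.update x l (t * x l)) :=
      set_pi_mem_nhds Set.finite_univ (fun i _ => ap_nhds (K := L) (L := L) hnt hγ0 _)
    refine Filter.mem_of_superset h2 (fun y hy => hγ y (fun i => ?_))
    have h3 : (Valued.v (y i - Function.update x l (t * x l) i) :
        WithZero (Multiplicative ℤ)) < γ := hy i (Set.mem_univ i)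
    have h4 : (Valued.v (Function.update x l (t * x l) i - x i) :
        WithZero (Multiplicative ℤ)) < γ := by
      by_cases hi : i = l
      · subst hi
        rw [Function.update_self]
        have e : t * x i - x i = (t - 1) * x i := by ring
        rw [e, map_mul]
        exact lt_of_le_of_lt (mul_le_mul' ht1 le_rfl) hM2
      · rw [Function.update_of_ne hi, sub_self, map_zero]
        exact zero_lt_iff.2 hγ0
    have e : y i - x i = (y i - Function.update x l (t * x l) i) +
        (Function.update x l (t * x l) i - x i) := by ring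
    rw [e]
    exact Valuation.map_add_lt _ h3 h4

end Pool.Agent.H598.FI
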