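import Pool.Agent.H598.WA.Approx

set_option autoImplicit false

namespace Pool.Agent.H598.FI

open WithZero Filter Topology
open Pool.Agent.H598.WA (ap_pow ap_ball ap_nhds ap_exists_M)

/-- one step of the Newton iteration -/
theorem kth_step {L : Type*} [Field L] (w : Valuation L (WithZero (Multiplicative ℤ)))
    {k : ℕ} (hkv : w (k : L) = 1) {M : ℕ} (hM : 1 ≤ M) (c : L) (m : ℕ) (hm : M ≤ m) (t : L)
    (h1 : w (t - 1) ≤ exp (-(M : ℤ))) (h2 : w (t ^ k - c) ≤ exp (-(m : ℤ))) :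
    ∃ t' : L, w (t' - t) ≤ exp (-(m : ℤ)) ∧ w (t' - 1) ≤ exp (-(M : ℤ)) ∧
      w (t' ^ k - c) ≤ exp (-((m + 1 : ℕ) : ℤ)) := by
  have hk0 : (k : L) ≠ 0 := by
    intro h
    rw [h, map_zero] at hkv
    exact zero_ne_one hkv
  have hM1 : (exp (-(M : ℤ)) : WithZero (Multiplicative ℤ)) < 1 := by
    rw [← exp_zero, exp_lt_exp]
    omega
  have hmM : (exp (-(m : ℤ)) : WithZero (Multiplicative ℤ)) ≤ exp (-(M : ℤ)) := by
    rw [exp_le_exp]
    omega
  have ht1 : w t = 1 := by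
    have h3 := w.map_one_add_of_lt (lt_of_le_of_lt h1 hM1)
    have h4 : 1 + (t - 1) = t := by ring
    rwa [h4] at h3
  have ht : t ≠ 0 := by
    rintro rfl
    rw [map_zero] at ht1
    exact zero_ne_one ht1
  obtain ⟨u, hu⟩ : ∃ u, u = (c - t ^ k) / (k * t ^ k) := ⟨_, rfl⟩
  have hwu : w u ≤ exp (-(m : ℤ)) := by
    rw [hu, map_div₀, map_mul, map_pow, hkv, ht1, one_pow, one_mul, div_one, Valuation.map_sub_swap]
    exact h2
  obtain ⟨q, hq1, hq2⟩ := ap_pow w u ((hwu.trans hmM).trans hM1.le) k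
  have h5 : w (t * (1 + u) - t) ≤ exp (-(m : ℤ)) := by
    have h6 : t * (1 + u) - t = t * u := by ring
    rw [h6, map_mul, ht1, one_mul]
    exact hwu
  refine ⟨t * (1 + u), h5, ?_, ?_⟩
  · have h6 : t * (1 + u) - 1 = (t * (1 + u) - t) + (t - 1) := by ring
    rw [h6]
    exact w.map_add_le (h5.trans hmM) h1
  · have h6 : (t * (1 + u)) ^ k - c = t ^ k * (q * u ^ 2) := by
      rw [mul_pow, hq2]
      have h7 : t ^ k * (k * u) = c - t ^ k := by
        rw [hu]
        field_simp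
      have h8 : t ^ k * (1 + k * u + q * u ^ 2) - c =
          (t ^ k - c) + t ^ k * (k * u) + t ^ k * (q * u ^ 2) := by ring
      rw [h8, h7]
      ring
    rw [h6, map_mul, map_mul, map_pow, map_pow, ht1, one_pow, one_mul]
    calc w q * w u ^ 2 ≤ 1 * (exp (-(m : ℤ))) ^ 2 := mul_le_mul' hq1 (pow_le_pow_left' hwu 2)
      _ = exp (-(m : ℤ) + -(m : ℤ)) := by rw [one_mul, sq, exp_add]
      _ ≤ exp (-((m + 1 : ℕ) : ℤ)) := by
          rw [exp_le_exp]
          push_cast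
          omega

/-- `k`-th roots near `1` in a complete field. -/
theorem kth_root {L : Type*} [Field L] [Valued L (WithZero (Multiplicative ℤ))] [CompleteSpace L]
    (hnt : ∃ c : L, c ≠ 0 ∧ (Valued.v c : WithZero (Multiplicative ℤ)) < 1)
    {k : ℕ} (hk : 1 ≤ k) (hkv : (Valued.v (k : L) : WithZero (Multiplicative ℤ)) = 1)
    {M : ℕ} (hM : 1 ≤ M) (c : L)
    (hc : (Valued.v (c - 1) : WithZero (Multiplicative ℤ)) ≤ exp (-(M : ℤ))) :
    ∃ t : L, (Valued.v (t - 1) : WithZero (Multiplicative ℤ)) ≤ exp (-(M : ℤ)) ∧ t ^ k = c := by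
  have hstart : Valued.v ((1 : L) - 1) ≤ (exp (-(M : ℤ)) : WithZero (Multiplicative ℤ)) ∧
      Valued.v ((1 : L) ^ k - c) ≤ (exp (-((M + 0 : ℕ) : ℤ)) : WithZero (Multiplicative ℤ)) := by
    constructor
    · rw [sub_self, map_zero]
      exact zero_le
    · rw [one_pow, Valuation.map_sub_swap, add_zero]
      exact hc
  have hstep : ∀ (n : ℕ) (t : {t : L // Valued.v (t - 1) ≤ (exp (-(M : ℤ)) :
      WithZero (Multiplicative ℤ)) ∧ Valued.v (t ^ k - c) ≤ (exp (-((M + n : ℕ) : ℤ)) :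
      WithZero (Multiplicative ℤ))}), ∃ t' : {t : L // Valued.v (t - 1) ≤ (exp (-(M : ℤ)) :
      WithZero (Multiplicative ℤ)) ∧ Valued.v (t ^ k - c) ≤ (exp (-((M + (n + 1) : ℕ) : ℤ)) :
      WithZero (Multiplicative ℤ))}, Valued.v (t'.1 - t.1) ≤ (exp (-((M + n : ℕ) : ℤ)) :
      WithZero (Multiplicative ℤ)) := by
    rintro n ⟨t, h1, h2⟩
    obtain ⟨t', h3, h4, h5⟩ := kth_step Valued.v hkv hM c (M + n) (by omega) t h1 h2
    exact ⟨⟨t', h4, h5⟩, h3⟩
  choose F hF using hstep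
  let T : (n : ℕ) → {t : L // Valued.v (t - 1) ≤ (exp (-(M : ℤ)) :
      WithZero (Multiplicative ℤ)) ∧ Valued.v (t ^ k - c) ≤ (exp (-((M + n : ℕ) : ℤ)) :
      WithZero (Multiplicative ℤ))} := fun n => Nat.rec ⟨1, hstart⟩ F n
  have hT : ∀ n, Valued.v ((T (n + 1)).1 - (T n).1) ≤ (exp (-((M + n : ℕ) : ℤ)) :
      WithZero (Multiplicative ℤ)) := fun n => hF n (T n)
  have hTT : ∀ n d, Valued.v ((T (n + d)).1 - (T n).1) ≤ (exp (-((M + n : ℕ) : ℤ)) :
      WithZero (Multiplicative ℤ)) := by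
    intro n d
    induction d with
    | zero =>
      rw [add_zero, sub_self, map_zero]
      exact zero_le
    | succ d ih =>
      have h1 : (T (n + (d + 1))).1 - (T n).1 =
          ((T (n + d + 1)).1 - (T (n + d)).1) + ((T (n + d)).1 - (T n).1) := by
        show (T (n + d + 1)).1 - (T n).1 =
          ((T (n + d + 1)).1 - (T (n + d)).1) + ((T (n + d)).1 - (T n).1)
        ring
      rw [h1]
      refine Valuation.map_add_le _ ((hT (n + d)).trans ?_) ih
      rw [exp_le_exp]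
      push_cast
      omega
  have hTc : CauchySeq fun n => (T n).1 := by
    rw [cauchySeq_iff]
    intro V hV
    rw [uniformity_eq_comap_nhds_zero L, mem_comap] at hV
    obtain ⟨S, hS, hSV⟩ := hV
    obtain ⟨γ, hγ0, hγ⟩ := ap_ball hS
    obtain ⟨N, hN1, hN⟩ := ap_exists_M 1 γ hγ0
    rw [mul_one] at hN
    have hclose : ∀ n ≥ N, Valued.v ((T n).1 - (T N).1) < γ := by
      intro n hn
      obtain ⟨d, rfl⟩ := Nat.exists_eq_add_of_le hn
      refine lt_of_le_of_lt ((hTT N d).trans ?_) hN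
      rw [exp_le_exp]
      push_cast
      omega
    refine ⟨N, fun n hn m hm => hSV ?_⟩
    refine hγ _ ?_
    rw [sub_zero]
    have h1 : (T m).1 - (T n).1 = ((T m).1 - (T N).1) + -((T n).1 - (T N).1) := by ring
    show Valued.v ((T m).1 - (T n).1) < γ
    rw [h1]
    exact Valuation.map_add_lt _ (hclose m hm) (by rw [Valuation.map_neg]; exact hclose n hn)
  obtain ⟨t, ht⟩ := cauchySeq_tendsto_of_complete hTc
  have hnt' : ∃ c : L, c ≠ 0 ∧ (Valued.v (algebraMap L L c) : WithZero (Multiplicative ℤ)) < 1 := hnt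
  refine ⟨t, ?_, ?_⟩
  · have h1 : {y : L | Valued.v (y - t) < (exp (-(M : ℤ)) : WithZero (Multiplicative ℤ))} ∈ 𝓝 t :=
      ap_nhds (K := L) hnt' exp_ne_zero t
    obtain ⟨n, hn⟩ := (ht.eventually h1).exists
    have hn : Valued.v ((T n).1 - t) < (exp (-(M : ℤ)) : WithZero (Multiplicative ℤ)) := hn
    have h2 : t - 1 = -((T n).1 - t) + ((T n).1 - 1) := by ring
    rw [h2]
    exact Valuation.map_add_le _ (by rw [Valuation.map_neg]; exact hn.le) (T n).2.1
  · by_contra hne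
    have hδ : (Valued.v (t ^ k - c) : WithZero (Multiplicative ℤ)) ≠ 0 :=
      (Valuation.ne_zero_iff _).2 (sub_ne_zero.2 hne)
    have h1 := ap_nhds (K := L) hnt' hδ (t ^ k)
    have h2 : Tendsto (fun n => (T n).1 ^ k) atTop (𝓝 (t ^ k)) := ht.pow k
    obtain ⟨N, -, hN⟩ := ap_exists_M 1 _ hδ
    rw [mul_one] at hN
    obtain ⟨n, hn, hnN⟩ := ((h2.eventually h1).and (eventually_ge_atTop N)).exists
    have hn : Valued.v ((T n).1 ^ k - t ^ k) < Valued.v (t ^ k - c) := hn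
    have h3 : Valued.v ((T n).1 ^ k - c) < Valued.v (t ^ k - c) := by
      refine lt_of_le_of_lt ((T n).2.2.trans ?_) hN
      rw [exp_le_exp]
      push_cast
      omega
    have h4 : t ^ k - c = -((T n).1 ^ k - t ^ k) + ((T n).1 ^ k - c) := by ring
    have h5 : Valued.v (t ^ k - c) < Valued.v (t ^ k - c) := by
      conv_lhs => rw [h4]
      exact Valuation.map_add_lt _ (by rw [Valuation.map_neg]; exact hn) h3
    exact lt_irrefl _ h5

end Pool.Agent.H598.FI
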