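import Mathlib

set_option autoImplicit false

namespace Pool.Agent.H598.FI

/-- the formal sum of a list -/
noncomputable def t4ls {X : Type*} (L : List X) : X →₀ ℤ :=
  (L.map fun x => Finsupp.single x (1 : ℤ)).sum

theorem t4ls_append {X : Type*} (L L' : List X) : t4ls (L ++ L') = t4ls L + t4ls L' := by
  unfold t4ls
  rw [List.map_append, List.sum_append]

theorem t4ls_cons {X : Type*} (x : X) (L : List X) : t4ls (x :: L) = Finsupp.single x 1 + t4ls L := by
  unfold t4ls
  rw [List.map_cons, List.sum_cons]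

theorem t4ls_nil {X : Type*} : t4ls ([] : List X) = 0 := rfl

/-- the degree -/
noncomputable def t4dg {X : Type*} : (X →₀ ℤ) →+ ℤ := Finsupp.liftAddHom fun _ => AddMonoidHom.id ℤ

theorem t4dg_apply {X : Type*} (f : X →₀ ℤ) : t4dg f = f.sum fun _ n => n := rfl

theorem t4dg_ls {X : Type*} (L : List X) : t4dg (t4ls L) = L.length := by
  induction L with
  | nil => rw [t4ls_nil, map_zero]; rfl
  | cons x L ih =>
    rw [t4ls_cons, map_add, ih, t4dg_apply, Finsupp.sum_single_index rfl, List.length_cons]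
    push_cast
    ring

theorem t4ls_replicate {X : Type*} (x : X) (n : ℕ) :
    t4ls (List.replicate n x) = Finsupp.single x (n : ℤ) := by
  induction n with
  | zero => rw [List.replicate_zero, t4ls_nil, Nat.cast_zero, Finsupp.single_zero]
  | succ n ih =>
    rw [List.replicate_succ, t4ls_cons, ih, ← Finsupp.single_add]
    congr 1
    push_cast
    ring

theorem t4_lists {X : Type*} (f : X →₀ ℤ) : ∃ P M : List X, f = t4ls P - t4ls M := by
  induction f using Finsupp.induction_linear with
  | zero => exact ⟨[], [], by rw [t4ls_nil, sub_zero]⟩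
  | add f g hf hg =>
    obtain ⟨P, M, h⟩ := hf
    obtain ⟨P', M', h'⟩ := hg
    refine ⟨P ++ P', M ++ M', ?_⟩
    rw [t4ls_append, t4ls_append, h, h']
    abel
  | single x n =>
    rcases le_total 0 n with hn | hn
    · refine ⟨List.replicate n.toNat x, [], ?_⟩
      rw [t4ls_replicate, t4ls_nil, sub_zero, Int.toNat_of_nonneg hn]
    · refine ⟨[], List.replicate (-n).toNat x, ?_⟩
      rw [t4ls_replicate, t4ls_nil, zero_sub, Int.toNat_of_nonneg (by omega), ← Finsupp.single_neg,
        neg_neg]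

/-- the sum over the entries of a list of given length -/
theorem t4_fin {X : Type*} {N : ℕ} (L : List X) (h : L.length = N) :
    ∃ p : Fin N → X, t4ls L = ∑ j, Finsupp.single (p j) (1 : ℤ) := by
  subst h
  refine ⟨L.get, ?_⟩
  rw [← List.sum_ofFn]
  unfold t4ls
  congr 1
  conv_lhs => rw [← List.ofFn_get L]
  rw [List.map_ofFn]
  rfl

/-- Formal sums of the same degree have a common sign pattern. -/
theorem signs {I : Type*} [Finite I] (X : I → Type*) [∀ i, Nonempty (X i)] (z : ∀ i, X i →₀ ℤ)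
    (δ : ℤ) (hz : ∀ i, (z i).sum (fun _ n => n) = δ) :
    ∃ (N N' : ℕ) (p : ∀ i, Fin N → X i) (m : ∀ i, Fin N' → X i), (N : ℤ) - (N' : ℤ) = δ ∧
      ∀ i, z i = ∑ j, Finsupp.single (p i j) (1 : ℤ) - ∑ j, Finsupp.single (m i j) (1 : ℤ) := by
  have h0 : ∀ i, ∃ P M : List (X i), z i = t4ls P - t4ls M := fun i => t4_lists (z i)
  choose P M hPM using h0
  obtain ⟨b, hb⟩ := (Set.finite_range fun i => (M i).length).bddAbove
  have hb' : ∀ i, (M i).length ≤ b := fun i => hb ⟨i, rfl⟩
  have hlen : ∀ i, ((P i).length : ℤ) = (M i).length + δ := by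
    intro i
    have h1 : t4dg (z i) = δ := hz i
    rw [hPM i, map_sub, t4dg_ls, t4dg_ls] at h1
    linarith
  obtain ⟨N', hN'⟩ : ∃ N' : ℕ, N' = max b (-δ).toNat := ⟨_, rfl⟩
  have hN1 : ∀ i, (M i).length ≤ N' := fun i => (hb' i).trans (by rw [hN']; exact le_max_left _ _)
  have hN2 : (-δ).toNat ≤ N' := by rw [hN']; exact le_max_right _ _
  obtain ⟨N, hN⟩ : ∃ N : ℕ, (N : ℤ) = N' + δ := ⟨((N' : ℤ) + δ).toNat, by omega⟩
  have key : ∀ i, ∃ (p : Fin N → X i) (m : Fin N' → X i),
      z i = ∑ j, Finsupp.single (p j) (1 : ℤ) - ∑ j, Finsupp.single (m j) (1 : ℤ) := by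
    intro i
    obtain ⟨x⟩ := (inferInstance : Nonempty (X i))
    have h1 := hN1 i
    have h2 := hlen i
    obtain ⟨p, hp⟩ := t4_fin (N := N) (List.replicate (N' - (M i).length) x ++ P i) (by
      rw [List.length_append, List.length_replicate]
      omega)
    obtain ⟨m, hm⟩ := t4_fin (N := N') (List.replicate (N' - (M i).length) x ++ M i) (by
      rw [List.length_append, List.length_replicate]
      omega)
    refine ⟨p, m, ?_⟩
    rw [← hp, ← hm, t4ls_append, t4ls_append, hPM i]
    abel
  choose p m hpm using key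
  exact ⟨N, N', p, m, by omega, hpm⟩

end Pool.Agent.H598.FI
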